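import Mathlib

/-!
# Functions with bounded differences on a finite power of a finite set
-/

set_option autoImplicit false

namespace Pool.Agent.T2H12.KR

open Finset
open scoped Classical

/-- the exponential moment of a bounded function with mean value zero -/
lemma hoeff {β : Type} [Fintype β] [Nonempty β] (G : β → ℝ) {D : ℝ} (hD : 0 < D)
    (hG : ∀ x y, |G x - G y| ≤ D) (t : ℝ) :
    ∑ x, Real.exp (t * ((∑ y, G y) / Fintype.card β - G x)) ≤
      Fintype.card β * Real.exp (t ^ 2 * D ^ 2 / 2) := by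
  have hβ : (0 : ℝ) < Fintype.card β := by exact_mod_cast Fintype.card_pos
  set M : ℝ := (∑ y, G y) / Fintype.card β with hM
  have hMs : ∑ y, G y = M * Fintype.card β := by
    rw [hM]
    field_simp
  have hb : ∀ x, |M - G x| ≤ D := by
    intro x
    have h1 : M - G x = (∑ y, (G y - G x)) / Fintype.card β := by
      rw [sum_sub_distrib, hMs, sum_const, card_univ, nsmul_eq_mul]
      field_simp
    rw [h1, abs_div, abs_of_pos hβ, div_le_iff₀ hβ]
    calc |∑ y, (G y - G x)| ≤ ∑ y, |G y - G x| := abs_sum_le_sum_abs _ _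
      _ ≤ ∑ _y : β, D := sum_le_sum fun y _ => hG y x
      _ = D * Fintype.card β := by
          rw [sum_const, card_univ, nsmul_eq_mul, mul_comm]
  have hz : ∑ x, (M - G x) = 0 := by
    rw [sum_sub_distrib, hMs, sum_const, card_univ, nsmul_eq_mul]
    ring
  have hpt : ∀ x, Real.exp (t * (M - G x)) ≤
      Real.cosh (t * D) + (M - G x) * (Real.sinh (t * D) / D) := by
    intro x
    have h1 := abs_le.1 (hb x)
    have ha : 0 ≤ (D + (M - G x)) / (2 * D) := div_nonneg (by linarith) (by linarith)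
    have hb' : 0 ≤ (D - (M - G x)) / (2 * D) := div_nonneg (by linarith) (by linarith)
    have hab : (D + (M - G x)) / (2 * D) + (D - (M - G x)) / (2 * D) = 1 := by
      field_simp
      ring
    have h2 := convexOn_exp.2 (Set.mem_univ (t * D)) (Set.mem_univ (-(t * D))) ha hb' hab
    simp only [smul_eq_mul] at h2
    have h3 : (D + (M - G x)) / (2 * D) * (t * D) + (D - (M - G x)) / (2 * D) * -(t * D) =
        t * (M - G x) := by
      field_simp
      ring
    rw [h3] at h2
    refine h2.trans (le_of_eq ?_)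
    rw [Real.cosh_eq, Real.sinh_eq]
    field_simp
    ring
  calc ∑ x, Real.exp (t * (M - G x))
      ≤ ∑ x, (Real.cosh (t * D) + (M - G x) * (Real.sinh (t * D) / D)) :=
        sum_le_sum fun x _ => hpt x
    _ = Fintype.card β * Real.cosh (t * D) := by
        rw [sum_add_distrib, ← sum_mul, hz, zero_mul, add_zero, sum_const, card_univ, nsmul_eq_mul]
    _ ≤ Fintype.card β * Real.exp (t ^ 2 * D ^ 2 / 2) := by
        refine mul_le_mul_of_nonneg_left ((Real.cosh_le_exp_half_sq _).trans (le_of_eq ?_)) hβ.le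
        congr 1
        ring

/-- the exponential moment of a function with bounded differences -/
lemma mcdFin {β : Type} [Fintype β] [Nonempty β] {D : ℝ} (hD : 0 < D) (t : ℝ) :
    ∀ (n : ℕ) (F : (Fin n → β) → ℝ),
      (∀ l l' : Fin n → β, ∀ a, (∀ b, b ≠ a → l b = l' b) → |F l - F l'| ≤ D) →
      ∑ l, Real.exp (t * ((∑ l', F l') / (Fintype.card β : ℝ) ^ n - F l)) ≤
        (Fintype.card β : ℝ) ^ n * Real.exp (t ^ 2 * (n * D ^ 2) / 2) := by
  have hβ : (0 : ℝ) < Fintype.card β := by exact_mod_cast Fintype.card_pos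
  intro n
  induction n with
  | zero =>
    intro F _
    simp
  | succ n ih =>
    intro F hF
    set q : ℝ := (Fintype.card β : ℝ) with hq
    have hsplit : ∀ f : (Fin (n + 1) → β) → ℝ,
        ∑ l, f l = ∑ x : β, ∑ l' : Fin n → β, f (Fin.cons x l') := by
      intro f
      rw [← (Fin.consEquiv fun _ : Fin (n + 1) => β).sum_comp, Fintype.sum_prod_type]
      rfl
    set G : β → ℝ := fun x => (∑ l' : Fin n → β, F (Fin.cons x l')) / q ^ n with hG
    have hqn : 0 < q ^ n := by positivity
    have hM : (∑ l', F l') / q ^ (n + 1) = (∑ x, G x) / q := by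
      rw [hsplit, hG, ← sum_div, div_div, pow_succ]
    have hGb : ∀ x y, |G x - G y| ≤ D := by
      intro x y
      rw [hG]
      simp only
      rw [← sub_div, ← sum_sub_distrib, abs_div, abs_of_pos hqn, div_le_iff₀ hqn]
      calc |∑ l' : Fin n → β, (F (Fin.cons x l') - F (Fin.cons y l'))|
          ≤ ∑ l' : Fin n → β, |F (Fin.cons x l') - F (Fin.cons y l')| :=
            abs_sum_le_sum_abs _ _
        _ ≤ ∑ _l' : Fin n → β, D := by
            refine sum_le_sum fun l' _ => hF _ _ 0 ?_
            intro b hb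
            obtain ⟨c, rfl⟩ := Fin.exists_succ_eq_of_ne_zero hb
            simp
        _ = D * q ^ n := by
            rw [sum_const, card_univ, nsmul_eq_mul, mul_comm, hq]
            simp
    have hin : ∀ x : β, ∑ l' : Fin n → β, Real.exp (t * (G x - F (Fin.cons x l'))) ≤
        q ^ n * Real.exp (t ^ 2 * (n * D ^ 2) / 2) := by
      intro x
      refine ih (fun l' => F (Fin.cons x l')) ?_
      intro l l' a hl
      refine hF _ _ a.succ ?_
      intro b hb
      refine Fin.cases (fun _ => ?_) (fun c hc => ?_) b hb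
      · simp
      · simp only [Fin.cons_succ]
        exact hl c fun h => hc (by rw [h])
    rw [hsplit, hM]
    calc ∑ x : β, ∑ l' : Fin n → β, Real.exp (t * ((∑ x, G x) / q - F (Fin.cons x l')))
        = ∑ x : β, Real.exp (t * ((∑ x, G x) / q - G x)) *
            ∑ l' : Fin n → β, Real.exp (t * (G x - F (Fin.cons x l'))) := by
          refine sum_congr rfl fun x _ => ?_
          rw [mul_sum]
          refine sum_congr rfl fun l' _ => ?_
          rw [← Real.exp_add]
          congr 1
          ring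
      _ ≤ ∑ x : β, Real.exp (t * ((∑ x, G x) / q - G x)) *
            (q ^ n * Real.exp (t ^ 2 * (n * D ^ 2) / 2)) :=
          sum_le_sum fun x _ => mul_le_mul_of_nonneg_left (hin x) (Real.exp_pos _).le
      _ = (∑ x : β, Real.exp (t * ((∑ x, G x) / q - G x))) *
            (q ^ n * Real.exp (t ^ 2 * (n * D ^ 2) / 2)) := by rw [sum_mul]
      _ ≤ (q * Real.exp (t ^ 2 * D ^ 2 / 2)) *
            (q ^ n * Real.exp (t ^ 2 * (n * D ^ 2) / 2)) :=
          mul_le_mul_of_nonneg_right (hoeff G hD hGb t) (by positivity)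
      _ = q ^ (n + 1) * Real.exp (t ^ 2 * ((n + 1 : ℕ) * D ^ 2) / 2) := by
          have h1 : t ^ 2 * (((n + 1 : ℕ) : ℝ) * D ^ 2) / 2 =
              t ^ 2 * D ^ 2 / 2 + t ^ 2 * (n * D ^ 2) / 2 := by
            push_cast
            ring
          rw [h1, Real.exp_add, pow_succ]
          ring

/-- **The inequality of bounded differences**, lower tail. -/
theorem mcd {α β : Type} [Fintype α] [Fintype β] [Nonempty β] (F : (α → β) → ℝ) {D : ℝ}
    (hD : 0 < D) (hF : ∀ l l' : α → β, ∀ a, (∀ b, b ≠ a → l b = l' b) → |F l - F l'| ≤ D)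
    {E s : ℝ} (hs : 0 ≤ s)
    (hE : E * (Fintype.card β : ℝ) ^ Fintype.card α ≤ ∑ l, F l) (S : Finset (α → β))
    (hS : ∀ l ∈ S, F l ≤ E - s) :
    (S.card : ℝ) ≤ Real.exp (-(s ^ 2 / (2 * Fintype.card α * D ^ 2))) *
      (Fintype.card β : ℝ) ^ Fintype.card α := by
  have hβ : (0 : ℝ) < Fintype.card β := by exact_mod_cast Fintype.card_pos
  set n := Fintype.card α with hn
  set q : ℝ := (Fintype.card β : ℝ) with hq
  have hqn : 0 < q ^ n := by positivity
  have e : α ≃ Fin n := Fintype.equivFin α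
  set t : ℝ := s / (n * D ^ 2) with ht
  have ht0 : 0 ≤ t := by positivity
  have hF' : ∀ l l' : Fin n → β, ∀ a, (∀ b, b ≠ a → l b = l' b) →
      |F (fun x => l (e x)) - F (fun x => l' (e x))| ≤ D := by
    intro l l' a hl
    refine hF _ _ (e.symm a) ?_
    intro b hb
    refine hl _ fun h => hb ?_
    rw [← h, Equiv.symm_apply_apply]
  have hmain := mcdFin hD t n (fun l => F fun x => l (e x)) hF'
  have hsum : ∀ f : (α → β) → ℝ, ∑ l : Fin n → β, f (fun x => l (e x)) = ∑ l, f l := by
    intro f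
    exact (Equiv.arrowCongr e.symm (Equiv.refl β)).sum_comp f
  rw [hsum F, hsum fun l => Real.exp (t * ((∑ l', F l') / q ^ n - F l))] at hmain
  have hE' : E ≤ (∑ l', F l') / q ^ n := by
    rw [le_div_iff₀ hqn]
    exact hE
  have h1 : (S.card : ℝ) * Real.exp (t * s) ≤ q ^ n * Real.exp (t ^ 2 * (n * D ^ 2) / 2) := by
    calc (S.card : ℝ) * Real.exp (t * s) = ∑ _l ∈ S, Real.exp (t * s) := by
          rw [sum_const, nsmul_eq_mul]
      _ ≤ ∑ l ∈ S, Real.exp (t * ((∑ l', F l') / q ^ n - F l)) := by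
          refine sum_le_sum fun l hl => Real.exp_le_exp.2 (mul_le_mul_of_nonneg_left ?_ ht0)
          linarith [hS l hl]
      _ ≤ ∑ l, Real.exp (t * ((∑ l', F l') / q ^ n - F l)) :=
          sum_le_sum_of_subset_of_nonneg (subset_univ _) fun _ _ _ => (Real.exp_pos _).le
      _ ≤ _ := hmain
  have h2 : (S.card : ℝ) ≤ q ^ n * Real.exp (t ^ 2 * (n * D ^ 2) / 2) * Real.exp (-(t * s)) := by
    calc (S.card : ℝ) = S.card * Real.exp (t * s) * Real.exp (-(t * s)) := by
          rw [mul_assoc, ← Real.exp_add, add_neg_cancel, Real.exp_zero, mul_one]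
      _ ≤ _ := mul_le_mul_of_nonneg_right h1 (Real.exp_pos _).le
  refine h2.trans (le_of_eq ?_)
  rw [mul_assoc, ← Real.exp_add, mul_comm]
  congr 2
  rcases Nat.eq_zero_or_pos n with h0 | h0
  · rw [ht, h0]
    simp
  · have h0' : (0 : ℝ) < n := by exact_mod_cast h0
    rw [ht]
    field_simp
    ring

end Pool.Agent.T2H12.KR
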