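import Mathlib

/-!
# Random selection of the coordinates (second moment)
-/

set_option autoImplicit false

namespace Pool.Agent.T2H12.KR

open Finset
open scoped Classical

section sel

variable {α γ M : Type} [Fintype α]

/-- the number of the functions with prescribed values on a set -/
lemma card_fix (H : Finset γ) (U : Finset α) (g : α → γ) (hg : ∀ a ∈ U, g a ∈ H) :
    ((Fintype.piFinset fun _ : α => H).filter fun l => ∀ a ∈ U, l a = g a).card *
      H.card ^ U.card = H.card ^ Fintype.card α := by
  have h1 : ((Fintype.piFinset fun _ : α => H).filter fun l => ∀ a ∈ U, l a = g a) =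
      Fintype.piFinset fun a => if a ∈ U then {g a} else H := by
    ext l
    simp only [mem_filter, Fintype.mem_piFinset]
    constructor
    · rintro ⟨h1, h2⟩ a
      split_ifs with ha
      · exact mem_singleton.2 (h2 a ha)
      · exact h1 a
    · intro h1
      refine ⟨fun a => ?_, fun a ha => ?_⟩
      · have h2 := h1 a
        split_ifs at h2 with ha
        · rw [mem_singleton.1 h2]
          exact hg a ha
        · exact h2
      · have h2 := h1 a
        rw [if_pos ha] at h2
        exact mem_singleton.1 h2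
  rw [h1, Fintype.card_piFinset]
  have h2 : ∀ a : α, (if a ∈ U then ({g a} : Finset γ) else H).card =
      if a ∈ U then 1 else H.card := fun a => by split_ifs <;> simp
  simp only [h2]
  rw [← prod_filter_mul_prod_filter_not univ (fun a => a ∈ U)]
  rw [prod_congr rfl (fun a ha => if_pos (mem_filter.1 ha).2), prod_const_one, one_mul,
    prod_congr rfl (fun a ha => if_neg (mem_filter.1 ha).2), prod_const, ← pow_add]
  congr 1
  have h3 : (univ.filter fun a => a ∉ U).card + (univ.filter fun a => a ∈ U).card =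
      Fintype.card α := by
    rw [add_comm, card_filter_add_card_filter_not, card_univ]
  have h4 : (univ.filter fun a => a ∈ U) = U := by
    ext a
    simp
  rw [h4] at h3
  exact h3

/-- the event of a tuple -/
noncomputable def ev {k : ℕ} (H : Finset γ) (h : Fin k → γ) (r : Fin k → α) : Finset (α → γ) :=
  (Fintype.piFinset fun _ : α => H).filter fun l => ∀ i, l (r i) = h i

lemma card_ev {k : ℕ} (H : Finset γ) (h : Fin k → γ) (hh : ∀ i, h i ∈ H) (r : Fin k → α)
    (hr : Function.Injective r) :
    (ev H h r).card * H.card ^ k = H.card ^ Fintype.card α := by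
  rcases k with _ | k
  · unfold ev
    rw [filter_true_of_mem (fun l _ i => i.elim0), Fintype.card_piFinset]
    simp
  have hx : (univ.image r).card = k + 1 := by
    rw [card_image_of_injective _ hr, card_univ, Fintype.card_fin]
  have h1 := card_fix H (univ.image r) (fun a => h (Function.invFun r a)) (fun a _ => hh _)
  rw [hx] at h1
  rw [← h1]
  congr 2
  unfold ev
  refine filter_congr fun l _ => ?_
  constructor
  · intro h2 a ha
    obtain ⟨i, -, rfl⟩ := mem_image.1 ha
    rw [h2, Function.leftInverse_invFun hr i]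
  · intro h2 i
    rw [h2 _ (mem_image_of_mem _ (mem_univ i)), Function.leftInverse_invFun hr i]

lemma card_ev_inter {k : ℕ} (H : Finset γ) (h : Fin k → γ) (hh : ∀ i, h i ∈ H)
    (r r' : Fin k → α) (hr : Function.Injective r) (hr' : Function.Injective r')
    (hd : ∀ i j, r i ≠ r' j) :
    (ev H h r ∩ ev H h r').card * (H.card ^ k * H.card ^ k) = H.card ^ Fintype.card α := by
  have e1 : ev H h r ∩ ev H h r' = ev H (Fin.append h h) (Fin.append r r') := by
    ext l
    unfold ev
    simp only [mem_inter, mem_filter]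
    constructor
    · rintro ⟨⟨h1, h2⟩, _, h3⟩
      refine ⟨h1, fun i => ?_⟩
      refine Fin.addCases (fun j => ?_) (fun j => ?_) i
      · rw [Fin.append_left, Fin.append_left, h2]
      · rw [Fin.append_right, Fin.append_right, h3]
    · rintro ⟨h1, h2⟩
      refine ⟨⟨h1, fun i => ?_⟩, h1, fun i => ?_⟩
      · have := h2 (Fin.castAdd k i)
        rwa [Fin.append_left, Fin.append_left] at this
      · have := h2 (Fin.natAdd k i)
        rwa [Fin.append_right, Fin.append_right] at this
  rw [e1, ← pow_add]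
  refine card_ev H _ (fun i => ?_) _ ?_
  · refine Fin.addCases (fun j => ?_) (fun j => ?_) i
    · rw [Fin.append_left]
      exact hh j
    · rw [Fin.append_right]
      exact hh j
  · intro i j
    refine Fin.addCases (fun i => ?_) (fun i => ?_) i <;>
      refine Fin.addCases (fun j => ?_) (fun j => ?_) j
    · rw [Fin.append_left, Fin.append_left]
      intro h1
      rw [hr h1]
    · rw [Fin.append_left, Fin.append_right]
      intro h1
      exact absurd h1 (hd i j)
    · rw [Fin.append_right, Fin.append_left]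
      intro h1
      exact absurd h1.symm (hd j i)
    · rw [Fin.append_right, Fin.append_right]
      intro h1
      rw [hr' h1]

/-- the tuples with a prescribed coordinate -/
lemma card_coord {k : ℕ} (i : Fin k) (a : α) :
    (univ.filter fun r : Fin k → α => r i = a).card ≤ Fintype.card α ^ (k - 1) := by
  have h1 : (univ.filter fun r : Fin k → α => r i = a) =
      Fintype.piFinset fun j => if j = i then {a} else univ := by
    ext r
    simp only [mem_filter, mem_univ, true_and, Fintype.mem_piFinset]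
    constructor
    · rintro rfl j
      split_ifs with hj
      · rw [hj]
        exact mem_singleton_self _
      · exact mem_univ _
    · intro h
      have := h i
      rw [if_pos rfl] at this
      exact mem_singleton.1 this
  rw [h1, Fintype.card_piFinset]
  have h2 : ∀ j : Fin k, (if j = i then ({a} : Finset α) else univ).card =
      if j = i then 1 else Fintype.card α := fun j => by split_ifs <;> simp
  simp only [h2]
  rw [← mul_prod_erase univ _ (mem_univ i), if_pos rfl, one_mul,
    prod_congr rfl (fun j hj => if_neg (mem_erase.1 hj).1), prod_const,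
    card_erase_of_mem (mem_univ i), card_univ, Fintype.card_fin]

/-- the tuples which are not injective -/
lemma card_noninj (k : ℕ) :
    (univ.filter fun r : Fin k → α => ¬ Function.Injective r).card ≤
      k ^ 2 * Fintype.card α ^ (k - 1) := by
  have h1 : (univ.filter fun r : Fin k → α => ¬ Function.Injective r) ⊆
      (univ : Finset (Fin k × Fin k)).biUnion fun s =>
        univ.filter fun r : Fin k → α => r s.1 = r s.2 ∧ s.1 ≠ s.2 := by
    intro r hr
    have h2 := (mem_filter.1 hr).2
    unfold Function.Injective at h2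
    push Not at h2
    obtain ⟨i, j, hij, hne⟩ := h2
    exact mem_biUnion.2 ⟨(i, j), mem_univ _, mem_filter.2 ⟨mem_univ _, hij, hne⟩⟩
  refine (card_le_card h1).trans (card_biUnion_le.trans ?_)
  have h2 : ∀ s ∈ (univ : Finset (Fin k × Fin k)),
      (univ.filter fun r : Fin k → α => r s.1 = r s.2 ∧ s.1 ≠ s.2).card ≤
        Fintype.card α ^ (k - 1) := by
    intro s _
    by_cases hs : s.1 = s.2
    · rw [filter_false_of_mem (fun r _ h => h.2 hs), card_empty]
      exact Nat.zero_le _
    · -- remove the coordinate `s.1`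
      obtain ⟨n, rfl⟩ : ∃ n, k = n + 1 := ⟨k - 1, by
        have := s.1.isLt
        omega⟩
      rw [Nat.add_sub_cancel]
      have h3 : Fintype.card (Fin n → α) = Fintype.card α ^ n := by
        rw [Fintype.card_fun, Fintype.card_fin]
      rw [← h3, ← card_univ]
      refine card_le_card_of_injOn (fun r : Fin (n + 1) → α => fun j => r (s.1.succAbove j))
        (fun _ _ => mem_coe.2 (mem_univ _)) ?_
      intro r hr r' hr' hrr
      obtain ⟨-, hr1, -⟩ := mem_filter.1 (mem_coe.1 hr)
      obtain ⟨-, hr2, -⟩ := mem_filter.1 (mem_coe.1 hr')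
      have h4 : ∀ j, j ≠ s.1 → r j = r' j := by
        intro j hj
        obtain ⟨j', rfl⟩ := Fin.exists_succAbove_eq hj
        exact congrFun hrr j'
      funext j
      by_cases hj : j = s.1
      · rw [hj, hr1, hr2]
        exact h4 _ (fun h => hs h.symm)
      · exact h4 j hj
  refine (sum_le_sum h2).trans (le_of_eq ?_)
  rw [sum_const, card_univ, Fintype.card_prod, Fintype.card_fin, smul_eq_mul, sq]

/-- **Random selection.** -/
theorem sel (k : ℕ) (H : Finset γ) (h : Fin k → γ) (hh : ∀ i, h i ∈ H)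
    (F : (Fin k → α) → M) (N : ℝ) (hN0 : 0 < N) (hN : N ≤ ((univ.image F).card : ℝ))
    (hN2 : (k : ℝ) ^ 2 * (Fintype.card α : ℝ) ^ (k - 1) ≤ N / 2) :
    (((Fintype.piFinset fun _ : α => H).filter fun l =>
      (((univ.filter fun r : Fin k → α => ∀ i, l (r i) = h i).image F).card : ℝ) <
        N / (4 * (H.card : ℝ) ^ k)).card : ℝ) ≤
      8 * (k : ℝ) ^ 2 * (Fintype.card α : ℝ) ^ (k - 1) * (H.card : ℝ) ^ k / N *
        (H.card : ℝ) ^ Fintype.card α := by
  set n := Fintype.card α with hn
  set q : ℝ := (H.card : ℝ) with hq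
  rcases H.eq_empty_or_nonempty with hHe | hHn
  · -- no multipliers
    have hk : k = 0 := by
      rcases k with _ | k
      · rfl
      · have := hh 0
        rw [hHe] at this
        exact absurd this (notMem_empty _)
    subst hk
    have h1 : ∀ l ∈ (Fintype.piFinset fun _ : α => H), ¬ ((((univ.filter fun r : Fin 0 → α =>
        ∀ i, l (r i) = h i).image F).card : ℝ) < N / (4 * q ^ 0)) := by
      intro l _
      rw [filter_true_of_mem (fun r _ i => i.elim0), pow_zero, mul_one]
      linarith
    rw [filter_false_of_mem h1, card_empty]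
    simp
  have hq0 : 0 < q := by
    rw [hq]
    exact_mod_cast card_pos.2 hHn
  have hqk : 0 < q ^ k := by positivity
  have hqn : 0 < q ^ n := by positivity
  -- the values with an injective representation
  set R := univ.filter fun r : Fin k → α => Function.Injective r with hR
  set V := R.image F with hV
  have hVc : N / 2 ≤ V.card := by
    have h1 : univ.image F ⊆ V ∪ (univ.filter fun r : Fin k → α => ¬ Function.Injective r).image F := by
      intro v hv
      obtain ⟨r, -, rfl⟩ := mem_image.1 hv
      by_cases hr : Function.Injective r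
      · exact mem_union_left _ (mem_image_of_mem _ (mem_filter.2 ⟨mem_univ _, hr⟩))
      · exact mem_union_right _ (mem_image_of_mem _ (mem_filter.2 ⟨mem_univ _, hr⟩))
    have h2 := (card_le_card h1).trans ((card_union_le _ _).trans (add_le_add le_rfl
      (card_image_le.trans (card_noninj (α := α) k))))
    have h3 : ((univ.image F).card : ℝ) ≤ V.card + (k : ℝ) ^ 2 * (n : ℝ) ^ (k - 1) := by
      exact_mod_cast h2
    linarith
  have hV0 : (0 : ℝ) < V.card := by linarith
  have hrep : ∀ v : M, ∃ r : Fin k → α, v ∈ V → Function.Injective r ∧ F r = v := by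
    intro v
    by_cases hv : v ∈ V
    · obtain ⟨r, hr, hrv⟩ := mem_image.1 hv
      exact ⟨r, fun _ => ⟨(mem_filter.1 hr).2, hrv⟩⟩
    · by_cases hne : Nonempty (Fin k → α)
      · exact ⟨hne.some, fun h => absurd h hv⟩
      · exfalso
        have : V = ∅ := by
          rw [hV, image_eq_empty, eq_empty_iff_forall_notMem]
          intro r _
          exact hne ⟨r⟩
        rw [this, card_empty] at hV0
        simp at hV0
  choose rep hrep using hrep
  set Ω := Fintype.piFinset fun _ : α => H with hΩ
  have hΩc : (Ω.card : ℝ) = q ^ n := by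
    rw [hΩ, Fintype.card_piFinset, prod_const, card_univ]
    push_cast
    rfl
  set E : M → Finset (α → γ) := fun v => ev H h (rep v) with hE
  set Z : (α → γ) → ℝ := fun l => ∑ v ∈ V, if l ∈ E v then (1 : ℝ) else 0 with hZ
  set e : ℝ := V.card / q ^ k with he
  have he0 : 0 < e := by positivity
  have hEv : ∀ v ∈ V, ((E v).card : ℝ) = q ^ n / q ^ k := by
    intro v hv
    have h1 := card_ev H h hh (rep v) (hrep v hv).1
    rw [eq_div_iff hqk.ne', hq, hn]
    exact_mod_cast h1
  have hEsub : ∀ v, E v ⊆ Ω := fun v => filter_subset _ _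
  have hZ1 : ∑ l ∈ Ω, Z l = V.card * (q ^ n / q ^ k) := by
    rw [hZ, sum_comm]
    have h1 : ∀ v ∈ V, (∑ l ∈ Ω, if l ∈ E v then (1 : ℝ) else 0) = q ^ n / q ^ k := by
      intro v hv
      rw [← hEv v hv, sum_boole]
      congr 2
      ext l
      rw [mem_filter]
      exact ⟨fun h => h.2, fun h => ⟨hEsub v h, h⟩⟩
    rw [sum_congr rfl h1, sum_const, nsmul_eq_mul]
  -- the pairs with a common element
  set Sh := (V ×ˢ V).filter fun s => ∃ i j, rep s.1 i = rep s.2 j with hSh
  have hShc : (Sh.card : ℝ) ≤ V.card * ((k : ℝ) ^ 2 * (n : ℝ) ^ (k - 1)) := by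
    have h1 : Sh.card = ∑ v ∈ V, (V.filter fun w => ∃ i j, rep v i = rep w j).card := by
      rw [hSh, card_filter, sum_product]
      refine sum_congr rfl fun v _ => ?_
      rw [card_filter]
    have h2 : ∀ v ∈ V, (V.filter fun w => ∃ i j, rep v i = rep w j).card ≤
        k ^ 2 * n ^ (k - 1) := by
      intro v _
      have h3 : (V.filter fun w => ∃ i j, rep v i = rep w j) ⊆
          ((univ : Finset (Fin k × Fin k)).biUnion fun s =>
            univ.filter fun r : Fin k → α => r s.2 = rep v s.1).image F := by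
        intro w hw
        obtain ⟨hw1, i, j, hij⟩ := mem_filter.1 hw
        refine mem_image.2 ⟨rep w, mem_biUnion.2 ⟨(i, j), mem_univ _, mem_filter.2
          ⟨mem_univ _, hij.symm⟩⟩, (hrep w hw1).2⟩
      refine (card_le_card h3).trans (card_image_le.trans (card_biUnion_le.trans ?_))
      refine (sum_le_sum fun s _ => card_coord s.2 (rep v s.1)).trans (le_of_eq ?_)
      rw [sum_const, card_univ, Fintype.card_prod, Fintype.card_fin, smul_eq_mul, sq]
    have h3 : Sh.card ≤ V.card * (k ^ 2 * n ^ (k - 1)) := by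
      rw [h1]
      refine (sum_le_sum h2).trans (le_of_eq ?_)
      rw [sum_const, smul_eq_mul]
    exact_mod_cast h3
  -- the second moment
  have hZ2 : ∑ l ∈ Ω, Z l ^ 2 ≤ V.card ^ 2 * (q ^ n / (q ^ k * q ^ k)) + Sh.card * (q ^ n / q ^ k) := by
    have h1 : ∀ l, Z l ^ 2 = ∑ s ∈ V ×ˢ V, if l ∈ E s.1 ∩ E s.2 then (1 : ℝ) else 0 := by
      intro l
      rw [sq, hZ, sum_mul_sum, sum_product]
      refine sum_congr rfl fun v _ => sum_congr rfl fun w _ => ?_
      by_cases h1 : l ∈ E v <;> by_cases h2 : l ∈ E w <;> simp [h1, h2]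
    have h2 : ∑ l ∈ Ω, Z l ^ 2 = ∑ s ∈ V ×ˢ V, ((E s.1 ∩ E s.2).card : ℝ) := by
      rw [sum_congr rfl fun l _ => h1 l, sum_comm]
      refine sum_congr rfl fun s _ => ?_
      rw [sum_boole]
      congr 2
      ext l
      rw [mem_filter]
      exact ⟨fun h => h.2, fun h => ⟨hEsub s.1 (mem_inter.1 h).1, h⟩⟩
    have h3 : ∀ s ∈ V ×ˢ V, ((E s.1 ∩ E s.2).card : ℝ) ≤ q ^ n / (q ^ k * q ^ k) +
        if (∃ i j, rep s.1 i = rep s.2 j) then q ^ n / q ^ k else 0 := by
      intro s hs
      obtain ⟨hs1, hs2⟩ := mem_product.1 hs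
      split_ifs with hd
      · have h4 : ((E s.1 ∩ E s.2).card : ℝ) ≤ (E s.1).card := by
          exact_mod_cast card_le_card inter_subset_left
        rw [hEv s.1 hs1] at h4
        have : 0 ≤ q ^ n / (q ^ k * q ^ k) := by positivity
        linarith
      · push Not at hd
        have h4 := card_ev_inter H h hh (rep s.1) (rep s.2) (hrep _ hs1).1 (hrep _ hs2).1 hd
        have h5 : ((E s.1 ∩ E s.2).card : ℝ) = q ^ n / (q ^ k * q ^ k) := by
          rw [eq_div_iff (by positivity), hq, hn]
          exact_mod_cast h4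
        rw [h5, add_zero]
    rw [h2]
    refine (sum_le_sum h3).trans (le_of_eq ?_)
    rw [sum_add_distrib, sum_const, card_product, nsmul_eq_mul, ← sum_filter, sum_const,
      nsmul_eq_mul]
    push_cast
    ring
  have hvar : ∑ l ∈ Ω, (Z l - e) ^ 2 ≤ Sh.card * (q ^ n / q ^ k) := by
    have h1 : ∑ l ∈ Ω, (Z l - e) ^ 2 = ∑ l ∈ Ω, Z l ^ 2 - 2 * e * ∑ l ∈ Ω, Z l + e ^ 2 * q ^ n := by
      rw [← hΩc, mul_sum, ← sum_sub_distrib]
      have h2 : e ^ 2 * (Ω.card : ℝ) = ∑ _l ∈ Ω, e ^ 2 := by
        rw [sum_const, nsmul_eq_mul]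
        ring
      rw [h2, ← sum_add_distrib]
      exact sum_congr rfl fun l _ => by ring
    rw [h1, hZ1]
    have h2 : (V.card : ℝ) ^ 2 * (q ^ n / (q ^ k * q ^ k)) -
        2 * e * (V.card * (q ^ n / q ^ k)) + e ^ 2 * q ^ n = 0 := by
      rw [he]
      field_simp
      ring
    linarith
  -- the conclusion
  set Bad := Ω.filter fun l => (((univ.filter fun r : Fin k → α => ∀ i, l (r i) = h i).image
    F).card : ℝ) < N / (4 * q ^ k) with hBad
  have hZle : ∀ l ∈ Ω, Z l ≤ (((univ.filter fun r : Fin k → α => ∀ i, l (r i) = h i).image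
      F).card : ℝ) := by
    intro l _
    rw [hZ]
    simp only
    rw [sum_boole]
    have h1 : (V.filter fun v => l ∈ E v) ⊆
        (univ.filter fun r : Fin k → α => ∀ i, l (r i) = h i).image F := by
      intro v hv
      obtain ⟨hv1, hv2⟩ := mem_filter.1 hv
      exact mem_image.2 ⟨rep v, mem_filter.2 ⟨mem_univ _, (mem_filter.1 hv2).2⟩, (hrep v hv1).2⟩
    exact_mod_cast card_le_card h1
  have hb : (Bad.card : ℝ) * (e / 2) ^ 2 ≤ Sh.card * (q ^ n / q ^ k) := by
    refine le_trans ?_ hvar
    have h1 : (Bad.card : ℝ) * (e / 2) ^ 2 ≤ ∑ l ∈ Bad, (Z l - e) ^ 2 := by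
      rw [← nsmul_eq_mul, ← sum_const]
      refine sum_le_sum fun l hl => ?_
      obtain ⟨hl1, hl2⟩ := mem_filter.1 hl
      have h2 := hZle l hl1
      have h3 : N / (4 * q ^ k) ≤ e / 2 := by
        rw [he, div_div, div_le_div_iff₀ (by positivity) (by positivity)]
        nlinarith
      have h4 : Z l ≤ e / 2 := by linarith
      nlinarith
    exact h1.trans (sum_le_sum_of_subset_of_nonneg (filter_subset _ _) fun l _ _ => sq_nonneg _)
  have hfin : (Bad.card : ℝ) * (V.card ^ 2 / (4 * q ^ k * q ^ k)) ≤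
      V.card * ((k : ℝ) ^ 2 * (n : ℝ) ^ (k - 1)) * (q ^ n / q ^ k) := by
    refine le_trans (le_of_eq ?_) (hb.trans (mul_le_mul_of_nonneg_right hShc (by positivity)))
    rw [he]
    field_simp
    ring
  rw [div_mul_eq_mul_div, le_div_iff₀ hN0]
  have h5 : (Bad.card : ℝ) * V.card ≤ 4 * ((k : ℝ) ^ 2 * (n : ℝ) ^ (k - 1)) * q ^ k * q ^ n := by
    have h6 : (Bad.card : ℝ) * V.card * (V.card / (4 * q ^ k * q ^ k)) ≤
        4 * ((k : ℝ) ^ 2 * (n : ℝ) ^ (k - 1)) * q ^ k * q ^ n * (V.card / (4 * q ^ k * q ^ k)) := by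
      calc (Bad.card : ℝ) * V.card * (V.card / (4 * q ^ k * q ^ k)) =
            (Bad.card : ℝ) * (V.card ^ 2 / (4 * q ^ k * q ^ k)) := by ring
        _ ≤ V.card * ((k : ℝ) ^ 2 * (n : ℝ) ^ (k - 1)) * (q ^ n / q ^ k) := hfin
        _ = 4 * ((k : ℝ) ^ 2 * (n : ℝ) ^ (k - 1)) * q ^ k * q ^ n *
            (V.card / (4 * q ^ k * q ^ k)) := by
          field_simp
    exact le_of_mul_le_mul_right h6 (by positivity)
  have h7 : (Bad.card : ℝ) * (N / 2) ≤ Bad.card * V.card :=
    mul_le_mul_of_nonneg_left hVc (Nat.cast_nonneg _)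
  linarith

/-- the same without decidability instances -/
theorem sel2 (k : ℕ) (H : Finset γ) (h : Fin k → γ) (hh : ∀ i, h i ∈ H)
    (F : (Fin k → α) → M) (U : Finset M) (hU : ∀ u ∈ U, ∃ r, F r = u) (N : ℝ) (hN0 : 0 < N)
    (hN : N ≤ (U.card : ℝ))
    (hN2 : (k : ℝ) ^ 2 * (Fintype.card α : ℝ) ^ (k - 1) ≤ N / 2) (S : Finset (α → γ))
    (hS : ∀ l ∈ S, (∀ a, l a ∈ H) ∧ ∃ V : Finset M,
      (∀ r : Fin k → α, (∀ i, l (r i) = h i) → F r ∈ V) ∧
      (V.card : ℝ) < N / (4 * (H.card : ℝ) ^ k)) :
    (S.card : ℝ) ≤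
      8 * (k : ℝ) ^ 2 * (Fintype.card α : ℝ) ^ (k - 1) * (H.card : ℝ) ^ k / N *
        (H.card : ℝ) ^ Fintype.card α := by
  refine le_trans (Nat.cast_le.2 (card_le_card ?_)) (sel k H h hh F N hN0 (hN.trans
    (Nat.cast_le.2 (card_le_card ?_))) hN2)
  · intro l hl
    obtain ⟨h1, V, hV1, hV2⟩ := hS l hl
    refine mem_filter.2 ⟨Fintype.mem_piFinset.2 h1, lt_of_le_of_lt (Nat.cast_le.2
      (card_le_card ?_)) hV2⟩
    intro x hx
    obtain ⟨r, hr, rfl⟩ := mem_image.1 hx
    exact hV1 r (mem_filter.1 hr).2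
  · intro u hu
    obtain ⟨r, rfl⟩ := hU u hu
    exact mem_image_of_mem _ (mem_univ _)

end sel

end Pool.Agent.T2H12.KR
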