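import Mathlib
import Pool.Agent.T2H12.KR.Sel
import Pool.Agent.T2H12.KR.Mcd

/-!
# Random selection of the coordinates: exponentially small exceptional sets
-/

set_option autoImplicit false

namespace Pool.Agent.T2H12.KR

open Finset
open scoped Classical

/-- **Random selection**, exponentially small exceptional set. -/
theorem sel3 {α γ M : Type} [Fintype α] (k : ℕ) (hk : 1 ≤ k) (H : Finset γ) (h : Fin k → γ)
    (hh : ∀ i, h i ∈ H)
    (F : (Fin k → α) → M) (U : Finset M) (hU : ∀ u ∈ U, ∃ r, F r = u) (N : ℝ) (hN0 : 0 < N)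
    (hN : N ≤ (U.card : ℝ))
    (hN2 : (k : ℝ) ^ 2 * (Fintype.card α : ℝ) ^ (k - 1) ≤ N / 2) (S : Finset (α → γ))
    (hS : ∀ l ∈ S, (∀ a, l a ∈ H) ∧ ∃ V : Finset M,
      (∀ r : Fin k → α, (∀ i, l (r i) = h i) → F r ∈ V) ∧
      (V.card : ℝ) < N / (4 * (H.card : ℝ) ^ k)) :
    (S.card : ℝ) ≤
      Real.exp (-((N / (4 * (H.card : ℝ) ^ k)) ^ 2 / (2 * Fintype.card α *
        ((k : ℝ) * (Fintype.card α : ℝ) ^ (k - 1)) ^ 2))) *
        (H.card : ℝ) ^ Fintype.card α := by
  set n := Fintype.card α with hn
  set q : ℝ := (H.card : ℝ) with hq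
  have hHn : H.Nonempty := ⟨h ⟨0, hk⟩, hh _⟩
  have hq0 : 0 < q := by
    rw [hq]
    exact_mod_cast card_pos.2 hHn
  have hqk : 0 < q ^ k := by positivity
  have hqn : 0 < q ^ n := by positivity
  have hkr : (1 : ℝ) ≤ k := by exact_mod_cast hk
  have hn0 : 0 < n := by
    rcases Nat.eq_zero_or_pos n with h0 | h0
    · exfalso
      have hU0 : U = ∅ := by
        rw [eq_empty_iff_forall_notMem]
        intro u hu
        obtain ⟨r, -⟩ := hU u hu
        have : IsEmpty α := Fintype.card_eq_zero_iff.1 h0
        exact this.elim (r ⟨0, hk⟩)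
      rw [hU0, card_empty] at hN
      simp at hN
      linarith
    · exact h0
  have hnr : (0 : ℝ) < n := by exact_mod_cast hn0
  set D : ℝ := (k : ℝ) * (n : ℝ) ^ (k - 1) with hD
  have hD0 : 0 < D := by positivity
  -- the values with an injective representation
  have hN' : N ≤ ((univ.image F).card : ℝ) := by
    refine hN.trans (Nat.cast_le.2 (card_le_card ?_))
    intro u hu
    obtain ⟨r, rfl⟩ := hU u hu
    exact mem_image_of_mem _ (mem_univ _)
  set R := univ.filter fun r : Fin k → α => Function.Injective r with hR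
  set V := R.image F with hV
  have hVc : N / 2 ≤ V.card := by
    have h1 : univ.image F ⊆ V ∪ (univ.filter fun r : Fin k → α => ¬ Function.Injective r).image F := by
      intro v hv
      obtain ⟨r, -, rfl⟩ := mem_image.1 hv
      by_cases hr : Function.Injective r
      · exact mem_union_left _ (mem_image_of_mem _ (mem_filter.2 ⟨mem_univ _, hr⟩))
      · exact mem_union_right _ (mem_image_of_mem _ (mem_filter.2 ⟨mem_univ _, hr⟩))
    have h2 := (card_le_card h1).trans ((card_union_le _ _).trans (add_le_add le_rfl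
      (card_image_le.trans (card_noninj (α := α) k))))
    have h3 : ((univ.image F).card : ℝ) ≤ V.card + (k : ℝ) ^ 2 * (n : ℝ) ^ (k - 1) := by
      exact_mod_cast h2
    linarith
  have hV0 : (0 : ℝ) < V.card := by linarith
  have hrep : ∀ v : M, ∃ r : Fin k → α, v ∈ V → Function.Injective r ∧ F r = v := by
    intro v
    by_cases hv : v ∈ V
    · obtain ⟨r, hr, hrv⟩ := mem_image.1 hv
      exact ⟨r, fun _ => ⟨(mem_filter.1 hr).2, hrv⟩⟩
    · have hne : Nonempty α := Fintype.card_pos_iff.1 hn0
      exact ⟨fun _ => hne.some, fun h => absurd h hv⟩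
  choose rep hrep using hrep
  -- the selection
  set β := {x // x ∈ H} with hβ
  have : Nonempty β := ⟨⟨_, hHn.choose_spec⟩⟩
  have hβc : Fintype.card β = H.card := Fintype.card_coe H
  set h' : Fin k → β := fun i => ⟨h i, hh i⟩ with hh'
  set Z : (α → β) → ℝ := fun l => ((V.filter fun v => ∀ i, l (rep v i) = h' i).card : ℝ) with hZ
  have hZ1 : ∑ l, Z l = V.card * (q ^ n / q ^ k) := by
    have h1 : ∀ l : α → β, Z l = ∑ v ∈ V, if (∀ i, l (rep v i) = h' i) then (1 : ℝ) else 0 := by
      intro l
      rw [hZ, sum_boole]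
    rw [sum_congr rfl fun l _ => h1 l, sum_comm]
    have h2 : ∀ v ∈ V, (∑ l : α → β, if (∀ i, l (rep v i) = h' i) then (1 : ℝ) else 0) =
        q ^ n / q ^ k := by
      intro v hv
      have h3 := card_ev (univ : Finset β) h' (fun _ => mem_univ _) (rep v) (hrep v hv).1
      rw [card_univ, hβc] at h3
      rw [sum_boole, eq_div_iff hqk.ne', hq, hn]
      have h4 : (univ.filter fun l : α → β => ∀ i, l (rep v i) = h' i) =
          ev (univ : Finset β) h' (rep v) := by
        ext l
        unfold ev
        simp only [mem_filter, mem_univ, true_and, Fintype.mem_piFinset, implies_true]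
      rw [h4]
      exact_mod_cast h3
    rw [sum_congr rfl h2, sum_const, nsmul_eq_mul]
  have hZ2 : ∀ l l' : α → β, ∀ a, (∀ b, b ≠ a → l b = l' b) → Z l - Z l' ≤ D := by
    intro l l' a hl
    have h1 : (V.filter fun v => ∀ i, l (rep v i) = h' i) ⊆
        (V.filter fun v => ∀ i, l' (rep v i) = h' i) ∪
          ((univ : Finset (Fin k)).biUnion fun i =>
            univ.filter fun r : Fin k → α => r i = a).image F := by
      intro v hv
      obtain ⟨hv1, hv2⟩ := mem_filter.1 hv
      by_cases hex : ∃ i, rep v i = a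
      · obtain ⟨i, hi⟩ := hex
        exact mem_union_right _ (mem_image.2 ⟨rep v, mem_biUnion.2 ⟨i, mem_univ _,
          mem_filter.2 ⟨mem_univ _, hi⟩⟩, (hrep v hv1).2⟩)
      · push Not at hex
        refine mem_union_left _ (mem_filter.2 ⟨hv1, fun i => ?_⟩)
        rw [← hl _ (hex i)]
        exact hv2 i
    have h2 : (((univ : Finset (Fin k)).biUnion fun i =>
            univ.filter fun r : Fin k → α => r i = a).image F).card ≤ k * n ^ (k - 1) := by
      refine card_image_le.trans (card_biUnion_le.trans ?_)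
      refine (sum_le_sum fun i _ => card_coord i a).trans (le_of_eq ?_)
      rw [sum_const, card_univ, Fintype.card_fin, smul_eq_mul]
    have h3 := (card_le_card h1).trans ((card_union_le _ _).trans (add_le_add le_rfl h2))
    have h4 : Z l ≤ Z l' + D := by
      rw [hZ, hD]
      beta_reduce
      exact_mod_cast h3
    linarith
  have hZ3 : ∀ l l' : α → β, ∀ a, (∀ b, b ≠ a → l b = l' b) → |Z l - Z l'| ≤ D := by
    intro l l' a hl
    rw [abs_le]
    have h1 := hZ2 l l' a hl
    have h2 := hZ2 l' l a fun b hb => (hl b hb).symm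
    constructor <;> linarith
  set s : ℝ := N / (4 * q ^ k) with hs
  have hs0 : 0 ≤ s := by positivity
  set S' : Finset (α → β) := univ.filter fun l => (fun a => (l a : γ)) ∈ S with hS'
  have hSS' : S.card ≤ S'.card := by
    refine le_trans (card_le_card ?_) (card_image_le (f := fun l : α → β => fun a => (l a : γ)))
    intro l hl
    exact mem_image.2 ⟨fun a => ⟨l a, (hS l hl).1 a⟩, mem_filter.2 ⟨mem_univ _, hl⟩, rfl⟩
  have hmain := mcd Z hD0 hZ3 (E := N / (2 * q ^ k)) hs0 (by
      rw [hZ1, hβc]
      change N / (2 * q ^ k) * q ^ n ≤ _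
      have h1 : N / (2 * q ^ k) * q ^ n = N / 2 * (q ^ n / q ^ k) := by
        field_simp
      rw [h1]
      exact mul_le_mul_of_nonneg_right hVc (by positivity)) S' (by
      intro l hl
      obtain ⟨h1, W, hW1, hW2⟩ := hS _ (mem_filter.1 hl).2
      have h3 : (V.filter fun v => ∀ i, l (rep v i) = h' i) ⊆ W := by
        intro v hv
        obtain ⟨hv1, hv2⟩ := mem_filter.1 hv
        rw [← (hrep v hv1).2]
        refine hW1 (rep v) fun i => ?_
        rw [hv2 i]
      have h4 : Z l ≤ W.card := by
        rw [hZ]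
        beta_reduce
        exact_mod_cast card_le_card h3
      have h5 : N / (2 * q ^ k) - s = N / (4 * q ^ k) := by
        rw [hs]
        field_simp
        norm_num
      rw [h5]
      linarith)
  rw [hβc] at hmain
  calc (S.card : ℝ) ≤ S'.card := by exact_mod_cast hSS'
    _ ≤ _ := hmain

end Pool.Agent.T2H12.KR
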