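import Mathlib
import Pool.Agent.T2H12.KR.Base
import Pool.Agent.T2H12.KR.Sel3

/-!
# Almost all multiplicative perturbations of a finite set of integers
-/

set_option autoImplicit false

namespace Pool.Agent.T2H12.KR

open Finset
open scoped Classical

/-- the functions `l : A → H` for which some set `X` with `{l(a) a : a ∈ A} ⊆ X ⊆ H A` has fewer than
`c |X|^(k-ε)` products of `k` elements and fewer than `c |X|^(m-ε)` sums of `m` elements -/
noncomputable def excMul (k m : ℕ) (ε c : ℝ) (A H : Finset ℤ) : Finset (A → ℤ) :=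
  (Fintype.piFinset fun _ : A => H).filter fun l => ∃ X : Finset ℤ,
    (univ.image fun a : A => l a * a) ⊆ X ∧ X ⊆ mulSet H A ∧
    ((prodSet k X).card : ℝ) < c * (X.card : ℝ) ^ ((k : ℝ) - ε) ∧
    ((sumSet m X).card : ℝ) < c * (X.card : ℝ) ^ ((m : ℝ) - ε)

lemma sumSet_mono {k : ℕ} {A A' : Finset ℤ} (h : A' ⊆ A) : sumSet k A' ⊆ sumSet k A :=
  image_subset_image (Fintype.piFinset_subset _ _ fun _ => h)

/-- the number of the multipliers -/
lemma card_mult {H : Finset ℤ} {x : ℝ} (hx : 1 ≤ x) (hH : ∀ h ∈ H, |(h : ℝ)| ≤ x) :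
    (H.card : ℝ) ≤ 3 * x := by
  have h1 : H ⊆ Finset.Icc (-⌊x⌋) ⌊x⌋ := by
    intro h hh
    have h2 := abs_le.1 (hH h hh)
    rw [mem_Icc]
    refine ⟨?_, Int.le_floor.2 h2.2⟩
    have h3 : -h ≤ ⌊x⌋ := Int.le_floor.2 (by
      push_cast
      linarith [h2.1])
    omega
  have h2 := card_le_card h1
  rw [Int.card_Icc] at h2
  have h3 : (0 : ℤ) ≤ ⌊x⌋ := Int.floor_nonneg.2 (by positivity)
  have h4 : ((H.card : ℕ) : ℤ) ≤ 2 * ⌊x⌋ + 1 := by omega
  have h5 : (H.card : ℝ) ≤ 2 * (⌊x⌋ : ℤ) + 1 := by exact_mod_cast h4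
  have h6 := Int.floor_le x
  linarith

/-- products of a perturbation -/
lemma prod_pert (k : ℕ) (A H X : Finset ℤ) (hA : A.Nonempty) (hH0 : (0 : ℤ) ∉ H) (l : A → ℤ) (hl : ∀ a, l a ∈ H)
    (hX : (univ.image fun a : A => l a * a) ⊆ X) :
    (prodSet k A).card ≤ H.card ^ k * (prodSet k X).card := by
  have h1 : ((Fintype.piFinset fun _ : Fin k => H) ×ˢ prodSet k X).card =
      H.card ^ k * (prodSet k X).card := by
    rw [card_product, Fintype.card_piFinset]
    simp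
  rw [← h1]
  have hrep : ∀ v ∈ prodSet k A, ∃ f : Fin k → A, ∏ i, (f i : ℤ) = v := by
    intro v hv
    obtain ⟨f, hf, rfl⟩ := mem_image.1 hv
    exact ⟨fun i => ⟨f i, Fintype.mem_piFinset.1 hf i⟩, rfl⟩
  have : Nonempty A := hA.to_subtype
  choose! rep hrep using hrep
  refine card_le_card_of_injOn (fun v => (fun i => l (rep v i), ∏ i, (l (rep v i) * (rep v i : ℤ))))
    ?_ ?_
  · intro v _
    refine mem_coe.2 (mem_product.2 ⟨Fintype.mem_piFinset.2 fun i => hl _, ?_⟩)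
    exact mem_image.2 ⟨fun i => l (rep v i) * (rep v i : ℤ), Fintype.mem_piFinset.2 fun i =>
      hX (mem_image.2 ⟨rep v i, mem_univ _, rfl⟩), rfl⟩
  · intro v hv w hw hvw
    obtain ⟨h2, h3⟩ := Prod.mk.inj hvw
    have h4 : ∀ u ∈ prodSet k A, ∏ i, (l (rep u i) * (rep u i : ℤ)) =
        (∏ i, l (rep u i)) * u := by
      intro u hu
      rw [prod_mul_distrib, hrep u hu]
    rw [h4 v (mem_coe.1 hv), h4 w (mem_coe.1 hw)] at h3
    have h5 : ∏ i, l (rep v i) = ∏ i, l (rep w i) := prod_congr rfl fun i _ => congrFun h2 i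
    rw [h5] at h3
    refine mul_left_cancel₀ (prod_ne_zero_iff.2 fun i _ h => hH0 ?_) h3
    rw [← h]
    exact hl _

/-- **Almost all multiplicative perturbations.** -/
theorem pert_main (k m : ℕ) (hk : 1 ≤ k) (hm : 1 ≤ m) {ε : ℝ} (hε : 0 < ε) (hε1 : ε ≤ 1) :
    ∃ (K : ℕ) (δ c : ℝ), 1 ≤ K ∧ 0 < δ ∧ 0 < c ∧ ∀ A : Finset ℤ, A.Nonempty →
      ∀ H : Finset ℤ, (0 : ℤ) ∉ H → (∀ h ∈ H, |(h : ℝ)| ≤ (A.card : ℝ) ^ δ) → K ≤ H.card →
        ((excMul k m ε c A H).card : ℝ) ≤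
          Real.exp (-(c * (A.card : ℝ) ^ (1 - ε))) * (H.card : ℝ) ^ A.card := by
  obtain ⟨K, δ₀, c₀, hδ₀, hc₀, hc₁, HH⟩ := shape k m hk hm (ε := ε / 4) (by positivity)
  have hkr : (1 : ℝ) ≤ k := by exact_mod_cast hk
  have hmr : (1 : ℝ) ≤ m := by exact_mod_cast hm
  set δ : ℝ := min δ₀ (ε / (4 * (k + m))) with hδd
  have hδ : 0 < δ := by positivity
  have hδe : δ * (4 * (k + m)) ≤ ε := by
    have h1 : δ ≤ ε / (4 * (k + m)) := min_le_right _ _
    rwa [le_div_iff₀ (by positivity)] at h1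
  have hδ1 : δ ≤ 1 := by nlinarith
  set R : ℝ := (2 * (m : ℝ) ^ 2 / c₀) ^ 2 with hR
  have hR0 : 0 < R := by positivity
  set c : ℝ := min (c₀ / (4 * 9 ^ (k + m))) (min (c₀ ^ 2 / (32 * (m : ℝ) ^ 2 * (3 ^ m) ^ 2))
    (1 / (3 * R ^ 2) ^ m)) with hcd
  have hc : 0 < c := by positivity
  have hc_1 : c ≤ c₀ / (4 * 9 ^ (k + m)) := min_le_left _ _
  have hc_2 : c ≤ c₀ ^ 2 / (32 * (m : ℝ) ^ 2 * (3 ^ m) ^ 2) :=
    (min_le_right _ _).trans (min_le_left _ _)
  have hc_3 : c ≤ 1 / (3 * R ^ 2) ^ m := (min_le_right _ _).trans (min_le_right _ _)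
  refine ⟨K + 1, δ, c, by omega, hδ, hc, ?_⟩
  intro A hA H hH0 hH hKH
  set n := A.card with hn
  have hn1 : (1 : ℝ) ≤ n := by exact_mod_cast card_pos.2 hA
  have hn0 : (0 : ℝ) < n := by linarith
  set q : ℝ := (H.card : ℝ) with hq
  have hq1 : 1 ≤ q := by
    rw [hq]
    exact_mod_cast (by omega : 1 ≤ H.card)
  have hq0 : 0 < q := by linarith
  have hnd : (1 : ℝ) ≤ (n : ℝ) ^ δ := Real.one_le_rpow hn1 hδ.le
  have hq3 : q ≤ 3 * (n : ℝ) ^ δ := card_mult hnd hH
  have hqp : ∀ j : ℕ, q ^ j ≤ 3 ^ j * (n : ℝ) ^ (δ * j) := by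
    intro j
    calc q ^ j ≤ (3 * (n : ℝ) ^ δ) ^ j := pow_le_pow_left₀ hq0.le hq3 j
      _ = 3 ^ j * (n : ℝ) ^ (δ * j) := by
          rw [mul_pow, Real.rpow_mul hn0.le, Real.rpow_natCast]
  have hXc : ∀ (X : Finset ℤ), X ⊆ mulSet H A → (X.card : ℝ) ≤ 3 * (n : ℝ) ^ (1 + δ) := by
    intro X hX
    have h2 : X.card ≤ H.card * A.card :=
      (card_le_card hX).trans (card_image_le.trans (card_product _ _).le)
    have h3 : (X.card : ℝ) ≤ q * n := by
      rw [hq, hn]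
      exact_mod_cast h2
    rw [Real.rpow_add hn0, Real.rpow_one]
    have h4 := mul_le_mul_of_nonneg_right hq3 hn0.le
    linarith
  -- the upper bound for the right-hand sides
  have hXub : ∀ (X : Finset ℤ), X ⊆ mulSet H A → ∀ j : ℕ, 1 ≤ j → j ≤ k + m →
      (X.card : ℝ) ^ ((j : ℝ) - ε) ≤ 3 ^ (k + m) * (n : ℝ) ^ ((j : ℝ) - ε / 2 - δ * j) := by
    intro X hX j hj hjk
    have hjr : (1 : ℝ) ≤ j := by exact_mod_cast hj
    have hjr2 : (j : ℝ) ≤ k + m := by exact_mod_cast hjk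
    have hje : 0 ≤ (j : ℝ) - ε := by linarith
    refine (Real.rpow_le_rpow (by positivity) (hXc X hX) hje).trans ?_
    rw [Real.mul_rpow (by norm_num) (by positivity), ← Real.rpow_mul hn0.le]
    refine mul_le_mul ?_ ?_ (by positivity) (by positivity)
    · rw [← Real.rpow_natCast]
      refine Real.rpow_le_rpow_of_exponent_le (by norm_num) ?_
      push_cast
      linarith
    · refine Real.rpow_le_rpow_of_exponent_le hn1 ?_
      have h5 : δ * (j : ℝ) ≤ δ * (k + m) := mul_le_mul_of_nonneg_left hjr2 hδ.le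
      have h6 : 0 ≤ δ * ε := by positivity
      nlinarith
  -- a lower bound is enough
  have hlow : ∀ (X : Finset ℤ), X ⊆ mulSet H A → ∀ (j : ℕ) (y : ℝ), 1 ≤ j → j ≤ k + m →
      c₀ * (n : ℝ) ^ ((j : ℝ) - ε / 4) ≤ 4 * q ^ j * y →
      c * (X.card : ℝ) ^ ((j : ℝ) - ε) ≤ y := by
    intro X hX j y hj hjk hy'
    have hy : c₀ * (n : ℝ) ^ ((j : ℝ) - ε / 2) ≤ 4 * q ^ j * y := by
      refine le_trans (mul_le_mul_of_nonneg_left ?_ hc₀.le) hy'
      exact Real.rpow_le_rpow_of_exponent_le hn1 (by linarith)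
    have hjr2 : (j : ℝ) ≤ k + m := by exact_mod_cast hjk
    have hqj : 0 < q ^ j := by positivity
    have hy0 : 0 ≤ y := by
      have h1 : 0 ≤ 4 * q ^ j * y := le_trans (by positivity) hy
      have h2 : 0 < 4 * q ^ j := by positivity
      exact nonneg_of_mul_nonneg_right (by linarith) h2
    have h1 := hXub X hX j hj hjk
    have h2 : c₀ * (n : ℝ) ^ ((j : ℝ) - ε / 2) ≤ 4 * (3 ^ (k + m) * (n : ℝ) ^ (δ * j)) * y := by
      refine hy.trans (mul_le_mul_of_nonneg_right ?_ hy0)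
      refine mul_le_mul_of_nonneg_left ((hqp j).trans ?_) (by norm_num)
      refine mul_le_mul_of_nonneg_right ?_ (by positivity)
      exact pow_le_pow_right₀ (by norm_num) hjk
    have h3 : (n : ℝ) ^ ((j : ℝ) - ε / 2) =
        (n : ℝ) ^ ((j : ℝ) - ε / 2 - δ * j) * (n : ℝ) ^ (δ * j) := by
      rw [← Real.rpow_add hn0]
      congr 1
      ring
    rw [h3] at h2
    have h4 : c₀ * (n : ℝ) ^ ((j : ℝ) - ε / 2 - δ * j) ≤ 4 * 3 ^ (k + m) * y := by
      have h5 : (0 : ℝ) < (n : ℝ) ^ (δ * j) := by positivity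
      refine le_of_mul_le_mul_right ?_ h5
      linarith
    calc c * (X.card : ℝ) ^ ((j : ℝ) - ε)
        ≤ c₀ / (4 * 9 ^ (k + m)) * (3 ^ (k + m) * (n : ℝ) ^ ((j : ℝ) - ε / 2 - δ * j)) :=
          mul_le_mul hc_1 h1 (by positivity) (by positivity)
      _ = c₀ * (n : ℝ) ^ ((j : ℝ) - ε / 2 - δ * j) * (3 ^ (k + m) / (4 * 9 ^ (k + m))) := by
          ring
      _ ≤ 4 * 3 ^ (k + m) * y * (3 ^ (k + m) / (4 * 9 ^ (k + m))) :=
          mul_le_mul_of_nonneg_right h4 (by positivity)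
      _ = y := by
          have h6 : (9 : ℝ) ^ (k + m) = 3 ^ (k + m) * 3 ^ (k + m) := by
            rw [← mul_pow]
            norm_num
          rw [h6]
          field_simp
  rcases HH A hA with h | h
  · -- many products
    have hem : excMul k m ε c A H = ∅ := by
      refine filter_false_of_mem fun l hl => ?_
      rintro ⟨X, hX1, hX2, hX3, -⟩
      have h1 := prod_pert k A H X hA hH0 l (fun a => Fintype.mem_piFinset.1 hl a) hX1
      have h2 : ((prodSet k A).card : ℝ) ≤ q ^ k * (prodSet k X).card := by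
        rw [hq]
        exact_mod_cast h1
      have h3 := hlow X hX2 k (prodSet k X).card hk (by omega) (by
        have h4 : 0 ≤ q ^ k * ((prodSet k X).card : ℝ) := by positivity
        linarith)
      linarith
    rw [hem, card_empty]
    push_cast
    positivity
  -- many sums of dilates
  obtain ⟨t, ht, hbig⟩ := exists_good hm hKH (h H hH0 (fun x hx => (hH x hx).trans
    (Real.rpow_le_rpow_of_exponent_le hn1 (min_le_left _ _))) {0} (singleton_nonempty _))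
  rw [card_singleton, Nat.cast_one, Real.one_rpow, mul_one] at hbig
  set N : ℝ := c₀ * (n : ℝ) ^ ((m : ℝ) - ε / 4) with hN
  have hN0 : 0 < N := by positivity
  have hcardA : Fintype.card A = n := Fintype.card_coe A
  have hpowm : (n : ℝ) ^ (m - 1) = (n : ℝ) ^ ((m : ℝ) - 1) := by
    rw [← Real.rpow_natCast]
    congr 1
    rw [Nat.cast_sub hm]
    simp
  have hqn : 0 < q ^ n := by positivity
  by_cases hsm : (m : ℝ) ^ 2 * (n : ℝ) ^ (m - 1) ≤ N / 2
  · -- large sets: random selection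
    have hsel := sel3 (α := A) (γ := ℤ) (M := ℤ) m hm H t ht (fun r => ∑ i, t i * (r i : ℤ)) _ (by
        intro x hx
        obtain ⟨⟨f, b⟩, hfb, rfl⟩ := mem_image.1 hx
        obtain ⟨hf, hb⟩ := mem_product.1 hfb
        have hb0 : b = 0 := mem_singleton.1 hb
        refine ⟨fun i => ⟨f i, Fintype.mem_piFinset.1 hf i⟩, ?_⟩
        simp [hb0]) N hN0 hbig (by rw [hcardA]; exact hsm) (excMul k m ε c A H) (by
        intro l hl
        obtain ⟨hl1, X, hX1, hX2, -, hX4⟩ := mem_filter.1 hl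
        refine ⟨fun a => Fintype.mem_piFinset.1 hl1 a, sumSet m X, ?_, ?_⟩
        · intro r hr
          refine mem_image.2 ⟨fun i => l (r i) * (r i : ℤ), Fintype.mem_piFinset.2 fun i =>
            hX1 (mem_image.2 ⟨r i, mem_univ _, rfl⟩), ?_⟩
          exact sum_congr rfl fun i _ => by simp only [hr i]
        · by_contra hcon
          rw [not_lt, div_le_iff₀ (by positivity)] at hcon
          have h3 := hlow X hX2 m (sumSet m X).card hm (by omega) (by
            change N ≤ _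
            change N ≤ _ * (4 * q ^ m) at hcon
            linarith)
          linarith)
    rw [hcardA] at hsel
    refine hsel.trans (mul_le_mul_of_nonneg_right (Real.exp_le_exp.2 (neg_le_neg ?_)) hqn.le)
    have hqm : q ^ m ≤ 3 ^ m * (n : ℝ) ^ (δ * m) := hqp m
    have h1 : N / (4 * (3 ^ m * (n : ℝ) ^ (δ * m))) ≤ N / (4 * (H.card : ℝ) ^ m) :=
      div_le_div_of_nonneg_left hN0.le (by positivity)
        (mul_le_mul_of_nonneg_left hqm (by norm_num))
    have h2 : (N / (4 * (3 ^ m * (n : ℝ) ^ (δ * m)))) ^ 2 ≤ (N / (4 * (H.card : ℝ) ^ m)) ^ 2 :=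
      pow_le_pow_left₀ (by positivity) h1 2
    rw [le_div_iff₀ (by positivity)]
    refine le_trans ?_ h2
    have h3 : (n : ℝ) ^ (1 - ε) * (n * ((n : ℝ) ^ ((m : ℝ) - 1)) ^ 2) ≤
        ((n : ℝ) ^ ((m : ℝ) - ε / 4) / (n : ℝ) ^ (δ * m)) ^ 2 := by
      rw [← Real.rpow_sub hn0, ← Real.rpow_natCast, ← Real.rpow_natCast, ← Real.rpow_mul hn0.le,
        ← Real.rpow_mul hn0.le]
      nth_rewrite 2 [← Real.rpow_one (n : ℝ)]
      rw [← Real.rpow_add hn0, ← Real.rpow_add hn0]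
      refine Real.rpow_le_rpow_of_exponent_le hn1 ?_
      push_cast
      have h7 : δ * (4 * (k + m)) = 4 * (δ * k) + 4 * (δ * m) := by ring
      have h8 : 0 ≤ δ * (k : ℝ) := by positivity
      linarith
    calc c * (n : ℝ) ^ (1 - ε) * (2 * n * ((m : ℝ) * (n : ℝ) ^ (m - 1)) ^ 2)
        ≤ c₀ ^ 2 / (32 * (m : ℝ) ^ 2 * (3 ^ m) ^ 2) * (n : ℝ) ^ (1 - ε) *
            (2 * n * ((m : ℝ) * (n : ℝ) ^ (m - 1)) ^ 2) := by
          refine mul_le_mul_of_nonneg_right (mul_le_mul_of_nonneg_right hc_2 ?_) ?_ <;> positivity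
      _ = c₀ ^ 2 / (16 * (3 ^ m) ^ 2) *
            ((n : ℝ) ^ (1 - ε) * (n * ((n : ℝ) ^ ((m : ℝ) - 1)) ^ 2)) := by
          rw [hpowm]
          field_simp
          ring
      _ ≤ c₀ ^ 2 / (16 * (3 ^ m) ^ 2) *
            ((n : ℝ) ^ ((m : ℝ) - ε / 4) / (n : ℝ) ^ (δ * m)) ^ 2 :=
          mul_le_mul_of_nonneg_left h3 (by positivity)
      _ = (N / (4 * (3 ^ m * (n : ℝ) ^ (δ * m)))) ^ 2 := by
          rw [hN]
          field_simp
          ring
  · -- small sets: there is no exceptional function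
    rw [not_le] at hsm
    have hnR : (n : ℝ) ≤ R := by
      have h2 : (n : ℝ) ^ ((m : ℝ) - ε / 4) = (n : ℝ) ^ (m - 1) * (n : ℝ) ^ (1 - ε / 4) := by
        rw [hpowm, ← Real.rpow_add hn0]
        congr 1
        ring
      rw [hN, h2] at hsm
      have h3 : c₀ / 2 * (n : ℝ) ^ (1 - ε / 4) < (m : ℝ) ^ 2 := by
        have h4 : (0 : ℝ) < (n : ℝ) ^ (m - 1) := by positivity
        refine lt_of_mul_lt_mul_right ?_ h4.le
        linarith
      have h4 : (n : ℝ) ^ ((1 : ℝ) / 2) ≤ (n : ℝ) ^ (1 - ε / 4) :=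
        Real.rpow_le_rpow_of_exponent_le hn1 (by linarith)
      have h5 : (n : ℝ) ^ ((1 : ℝ) / 2) ≤ 2 * (m : ℝ) ^ 2 / c₀ := by
        rw [le_div_iff₀ hc₀]
        have h6 := mul_le_mul_of_nonneg_left h4 (by positivity : 0 ≤ c₀ / 2)
        linarith
      have h6 : (n : ℝ) = ((n : ℝ) ^ ((1 : ℝ) / 2)) ^ 2 := by
        rw [← Real.rpow_natCast, ← Real.rpow_mul hn0.le]
        norm_num
      rw [h6, hR]
      exact pow_le_pow_left₀ (by positivity) h5 2
    have hem : excMul k m ε c A H = ∅ := by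
      refine filter_false_of_mem fun l _ => ?_
      rintro ⟨X, hX1, hX2, -, hX3⟩
      obtain ⟨a, ha⟩ := hA
      have hxX : l ⟨a, ha⟩ * a ∈ X := hX1 (mem_image.2 ⟨⟨a, ha⟩, mem_univ _, rfl⟩)
      have h1 : (1 : ℝ) ≤ (sumSet m X).card := by
        exact_mod_cast card_pos.2 (sumSet_nonempty ⟨_, hxX⟩)
      have hX1' : (1 : ℝ) ≤ X.card := by exact_mod_cast card_pos.2 ⟨_, hxX⟩
      have hXR : (X.card : ℝ) ≤ 3 * R ^ 2 := by
        refine (hXc X hX2).trans (mul_le_mul_of_nonneg_left ?_ (by norm_num))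
        calc (n : ℝ) ^ (1 + δ) ≤ (n : ℝ) ^ (2 : ℝ) :=
              Real.rpow_le_rpow_of_exponent_le hn1 (by linarith)
          _ = (n : ℝ) ^ 2 := by
              rw [← Real.rpow_natCast]
              norm_num
          _ ≤ R ^ 2 := pow_le_pow_left₀ hn0.le hnR 2
      have h2 : (X.card : ℝ) ^ ((m : ℝ) - ε) ≤ (3 * R ^ 2) ^ m := by
        calc (X.card : ℝ) ^ ((m : ℝ) - ε) ≤ (X.card : ℝ) ^ (m : ℝ) :=
              Real.rpow_le_rpow_of_exponent_le hX1' (by linarith)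
          _ = (X.card : ℝ) ^ m := Real.rpow_natCast _ _
          _ ≤ (3 * R ^ 2) ^ m := pow_le_pow_left₀ (by positivity) hXR m
      have h3 : c * (X.card : ℝ) ^ ((m : ℝ) - ε) ≤ 1 := by
        calc c * (X.card : ℝ) ^ ((m : ℝ) - ε)
            ≤ 1 / (3 * R ^ 2) ^ m * (3 * R ^ 2) ^ m :=
              mul_le_mul hc_3 h2 (by positivity) (by positivity)
          _ = 1 := by field_simp
      linarith
    rw [hem, card_empty]
    push_cast
    positivity

end Pool.Agent.T2H12.KR
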