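import Mathlib
import Pool.Agent.T2H12.KR.Base
import Pool.Agent.T2H12.KR.Pert

/-!
# Sets of integers which contain several small multiples of many integers
-/

set_option autoImplicit false

namespace Pool.Agent.T2H12.KR

open Finset
open scoped Classical

/-- The set of all sums of `m` elements of `X` and an element of `B`. -/
def sumPlus (m : ℕ) (X B : Finset ℤ) : Finset ℤ :=
  ((Fintype.piFinset fun _ : Fin m => X) ×ˢ B).image fun s => ∑ i, s.1 i + s.2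

lemma dilateSum_sub' {m : ℕ} {t : Fin m → ℤ} {A X B : Finset ℤ}
    (h : ∀ i, ∀ a ∈ A, t i * a ∈ X) : dilateSum m t A B ⊆ sumPlus m X B := by
  intro x hx
  obtain ⟨⟨f, b⟩, hfb, rfl⟩ := mem_image.1 hx
  obtain ⟨hf, hb⟩ := mem_product.1 hfb
  exact mem_image.2 ⟨(fun i => t i * f i, b), mem_product.2 ⟨Fintype.mem_piFinset.2 fun i =>
    h i _ (Fintype.mem_piFinset.1 hf i), hb⟩, rfl⟩

lemma prodSet_dil {k : ℕ} {l : ℤ} (hl : l ≠ 0) {A X : Finset ℤ} (h : ∀ a ∈ A, l * a ∈ X) :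
    (prodSet k A).card ≤ (prodSet k X).card := by
  refine card_le_card_of_injOn (fun x => l ^ k * x) ?_ ?_
  · intro x hx
    obtain ⟨f, hf, rfl⟩ := mem_image.1 (mem_coe.1 hx)
    refine mem_coe.2 (mem_image.2 ⟨fun i => l * f i, Fintype.mem_piFinset.2 fun i =>
      h _ (Fintype.mem_piFinset.1 hf i), ?_⟩)
    simp [prod_mul_distrib]
  · intro x _ y _ hxy
    exact mul_left_cancel₀ (pow_ne_zero k hl) hxy

/-- **Many integers with several small multiples in the set.** -/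
theorem mult_main (k m : ℕ) (hk : 1 ≤ k) (hm : 1 ≤ m) {ε : ℝ} (hε : 0 < ε) (hε1 : ε ≤ 1) :
    ∃ (K : ℕ) (δ c : ℝ), 0 < δ ∧ 0 < c ∧ ∀ X : Finset ℤ, X.Nonempty → ∀ Y : Finset ℤ,
      (0 : ℤ) ∉ Y → (X.card : ℝ) ^ (1 - δ) ≤ Y.card →
      (∀ y ∈ Y, ∃ L : Finset ℤ, K ≤ L.card ∧
        ∀ l ∈ L, l ≠ 0 ∧ |(l : ℝ)| ≤ (X.card : ℝ) ^ δ ∧ l * y ∈ X) →
      c * (X.card : ℝ) ^ ((k : ℝ) - ε) ≤ (prodSet k X).card ∨
      ∀ B : Finset ℤ, B.Nonempty →
        c * (X.card : ℝ) ^ ((m : ℝ) - ε) * (B.card : ℝ) ^ (1 - ε) ≤ (sumPlus m X B).card := by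
  obtain ⟨K₀, δ₀, c₀, hδ₀, hc₀, hc₁, HH⟩ := shape k m hk hm (ε := ε / 2) (by positivity)
  have hkr : (1 : ℝ) ≤ k := by exact_mod_cast hk
  have hmr : (1 : ℝ) ≤ m := by exact_mod_cast hm
  set K : ℕ := K₀ + 1 with hK
  have hKr : (1 : ℝ) ≤ (K : ℝ) := by
    rw [hK]
    push_cast
    have : (0 : ℝ) ≤ K₀ := Nat.cast_nonneg _
    linarith
  set δ : ℝ := min (δ₀ / (2 * (K + 1) * (δ₀ + 1) + 2)) (ε / (2 * (K + 1) * (k + m))) with hδd
  have hδ : 0 < δ := by positivity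
  have hδ1 : δ * (2 * (K + 1) * (δ₀ + 1) + 2) ≤ δ₀ := by
    have h1 : δ ≤ δ₀ / (2 * (K + 1) * (δ₀ + 1) + 2) := min_le_left _ _
    rwa [le_div_iff₀ (by positivity)] at h1
  have hδ2 : δ * (2 * (K + 1) * (k + m)) ≤ ε := by
    have h1 : δ ≤ ε / (2 * (K + 1) * (k + m)) := min_le_right _ _
    rwa [le_div_iff₀ (by positivity)] at h1
  -- the loss in the exponent
  set e : ℝ := δ * (K + 1) with he
  have he0 : 0 < e := by positivity
  have he1 : 2 * δ ≤ δ₀ * (1 - e) := by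
    have h1 : δ * (2 * (K + 1) * (δ₀ + 1) + 2) = 2 * e * (δ₀ + 1) + 2 * δ := by
      rw [he]
      ring
    rw [h1] at hδ1
    have h2 : 0 ≤ e * δ₀ := by positivity
    linarith
  have he2 : e * (k + m) ≤ ε / 2 := by
    have h1 : δ * (2 * (K + 1) * (k + m)) = 2 * (e * (k + m)) := by
      rw [he]
      ring
    rw [h1] at hδ2
    linarith
  have hek : e * k ≤ ε / 2 := by
    have : 0 ≤ e * (m : ℝ) := by positivity
    linarith
  have hem : e * m ≤ ε / 2 := by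
    have : 0 ≤ e * (k : ℝ) := by positivity
    linarith
  have he3 : e ≤ 1 / 2 := by
    have : e * 1 ≤ e * k := mul_le_mul_of_nonneg_left hkr he0.le
    linarith
  set Z₀ : ℝ := (3 : ℝ) ^ ((K : ℝ) * δ₀ / δ) with hZ₀
  have hZ₁ : 1 ≤ Z₀ := Real.one_le_rpow (by norm_num) (by positivity)
  set c : ℝ := min (c₀ / (3 ^ K) ^ (k + m)) (1 / Z₀ ^ (k + m)) with hcd
  have hc : 0 < c := by positivity
  refine ⟨K, δ, c, hδ, hc, ?_⟩
  intro X hX Y hY0 hYc hY
  set n := X.card with hn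
  have hn1 : (1 : ℝ) ≤ n := by exact_mod_cast card_pos.2 hX
  have hn0 : (0 : ℝ) < n := by linarith
  have hke : 0 ≤ (k : ℝ) - ε := by linarith
  have hme : 0 ≤ (m : ℝ) - ε := by linarith
  by_cases hsm : (n : ℝ) < Z₀
  · -- small sets
    left
    have h1 : (1 : ℝ) ≤ (prodSet k X).card := by exact_mod_cast card_pos.2 (prodSet_nonempty hX)
    refine le_trans ?_ h1
    have h2 : (n : ℝ) ^ ((k : ℝ) - ε) ≤ Z₀ ^ (k + m) := by
      calc (n : ℝ) ^ ((k : ℝ) - ε) ≤ (n : ℝ) ^ (((k + m : ℕ) : ℝ)) := by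
            refine Real.rpow_le_rpow_of_exponent_le hn1 ?_
            push_cast
            linarith
        _ = (n : ℝ) ^ (k + m) := Real.rpow_natCast _ _
        _ ≤ Z₀ ^ (k + m) := pow_le_pow_left₀ hn0.le hsm.le _
    calc c * (n : ℝ) ^ ((k : ℝ) - ε) ≤ 1 / Z₀ ^ (k + m) * Z₀ ^ (k + m) :=
          mul_le_mul (min_le_right _ _) h2 (by positivity) (by positivity)
      _ = 1 := by field_simp
  rw [not_lt] at hsm
  have h3n : (3 : ℝ) ^ ((K : ℝ) * δ₀) ≤ (n : ℝ) ^ δ := by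
    calc (3 : ℝ) ^ ((K : ℝ) * δ₀) = Z₀ ^ δ := by
          rw [hZ₀, ← Real.rpow_mul (by norm_num)]
          congr 1
          field_simp
      _ ≤ (n : ℝ) ^ δ := Real.rpow_le_rpow (by positivity) hsm hδ.le
  have hnd : (1 : ℝ) ≤ (n : ℝ) ^ δ := Real.one_le_rpow hn1 hδ.le
  -- the multipliers
  set H₀ : Finset ℤ := Finset.Icc (-⌊(n : ℝ) ^ δ⌋) ⌊(n : ℝ) ^ δ⌋ with hH₀
  have hmemH : ∀ l : ℤ, |(l : ℝ)| ≤ (n : ℝ) ^ δ → l ∈ H₀ := by
    intro l hl
    have h2 := abs_le.1 hl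
    rw [hH₀, mem_Icc]
    refine ⟨?_, Int.le_floor.2 h2.2⟩
    have h3 : -l ≤ ⌊(n : ℝ) ^ δ⌋ := Int.le_floor.2 (by
      push_cast
      linarith [h2.1])
    omega
  have hH₀c : (H₀.card : ℝ) ≤ 3 * (n : ℝ) ^ δ := card_mult hnd (by
    intro l hl
    rw [hH₀, mem_Icc] at hl
    have h1 : (l : ℝ) ≤ ⌊(n : ℝ) ^ δ⌋ := by exact_mod_cast hl.2
    have h2 : -(⌊(n : ℝ) ^ δ⌋ : ℝ) ≤ l := by exact_mod_cast hl.1
    have h3 := Int.floor_le ((n : ℝ) ^ δ)
    rw [abs_le]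
    constructor <;> linarith)
  have hsel : ∀ y : ℤ, ∃ L : Finset ℤ, y ∈ Y → L.card = K ∧
      ∀ l ∈ L, l ≠ 0 ∧ |(l : ℝ)| ≤ (n : ℝ) ^ δ ∧ l * y ∈ X := by
    intro y
    by_cases hy : y ∈ Y
    · obtain ⟨L, hL1, hL2⟩ := hY y hy
      obtain ⟨L', hL', hLc⟩ := exists_subset_card_eq hL1
      exact ⟨L', fun _ => ⟨hLc, fun l hl => hL2 l (hL' hl)⟩⟩
    · exact ⟨∅, fun h => absurd h hy⟩
  choose D hD using hsel
  have hYn : Y.Nonempty := by
    rw [nonempty_iff_ne_empty]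
    intro h
    rw [h, card_empty, Nat.cast_zero] at hYc
    have : 0 < (n : ℝ) ^ (1 - δ) := by positivity
    linarith
  obtain ⟨L, hLm, hLbig⟩ : ∃ L ∈ H₀.powersetCard K,
      (Y.card : ℝ) / (H₀.powersetCard K).card ≤ ((Y.filter fun y => D y = L).card : ℝ) := by
    have hmaps : ∀ y ∈ Y, D y ∈ H₀.powersetCard K := by
      intro y hy
      obtain ⟨h1, h2⟩ := hD y hy
      exact mem_powersetCard.2 ⟨fun l hl => hmemH l (h2 l hl).2.1, h1⟩
    have hne : (H₀.powersetCard K).Nonempty := by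
      obtain ⟨y, hy⟩ := hYn
      exact ⟨_, hmaps y hy⟩
    have hcp : (0 : ℝ) < (H₀.powersetCard K).card := by exact_mod_cast card_pos.2 hne
    have h1 : ∑ L ∈ H₀.powersetCard K, ((Y.filter fun y => D y = L).card : ℝ) = Y.card := by
      exact_mod_cast (card_eq_sum_card_fiberwise hmaps).symm
    by_contra hcon
    push Not at hcon
    have h2 := sum_lt_sum_of_nonempty hne hcon
    rw [h1, sum_const, nsmul_eq_mul] at h2
    have h3 : ((H₀.powersetCard K).card : ℝ) * (Y.card / (H₀.powersetCard K).card) = Y.card := by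
      field_simp
    linarith
  set A := Y.filter fun y => D y = L with hA
  have hAY : A ⊆ Y := filter_subset _ _
  have hpc : ((H₀.powersetCard K).card : ℝ) ≤ 3 ^ K * (n : ℝ) ^ (δ * K) := by
    calc ((H₀.powersetCard K).card : ℝ) ≤ (H₀.card : ℝ) ^ K := by
          rw [card_powersetCard]
          exact_mod_cast Nat.choose_le_pow H₀.card K
      _ ≤ (3 * (n : ℝ) ^ δ) ^ K := pow_le_pow_left₀ (Nat.cast_nonneg _) hH₀c K
      _ = 3 ^ K * (n : ℝ) ^ (δ * K) := by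
          rw [mul_pow, Real.rpow_mul hn0.le, Real.rpow_natCast]
  have hAc : (n : ℝ) ^ (1 - e) / 3 ^ K ≤ A.card := by
    refine le_trans ?_ hLbig
    have h1 : (n : ℝ) ^ (1 - δ) / (3 ^ K * (n : ℝ) ^ (δ * K)) ≤
        (Y.card : ℝ) / (H₀.powersetCard K).card := by
      refine div_le_div₀ (Nat.cast_nonneg _) hYc ?_ hpc
      exact_mod_cast card_pos.2 ⟨L, hLm⟩
    refine le_trans (le_of_eq ?_) h1
    rw [div_eq_div_iff (by positivity) (by positivity)]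
    have h2 : (n : ℝ) ^ (1 - δ) = (n : ℝ) ^ (1 - e) * (n : ℝ) ^ (δ * K) := by
      rw [← Real.rpow_add hn0, he]
      congr 1
      ring
    rw [h2]
    ring
  have hA0 : (0 : ℝ) < A.card := lt_of_lt_of_le (by positivity) hAc
  have hAn : A.Nonempty := card_pos.1 (by exact_mod_cast hA0)
  have hA1 : (1 : ℝ) ≤ A.card := by exact_mod_cast card_pos.2 hAn
  have hLc : L.card = K := (mem_powersetCard.1 hLm).2
  have hLX : ∀ l ∈ L, l ≠ 0 ∧ |(l : ℝ)| ≤ (n : ℝ) ^ δ ∧ ∀ y ∈ A, l * y ∈ X := by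
    intro l hl
    obtain ⟨y, hy⟩ := id hAn
    obtain ⟨hy1, hy2⟩ := mem_filter.1 hy
    have h1 := (hD y hy1).2 l (by rw [hy2]; exact hl)
    refine ⟨h1.1, h1.2.1, fun z hz => ?_⟩
    obtain ⟨hz1, hz2⟩ := mem_filter.1 hz
    exact ((hD z hz1).2 l (by rw [hz2]; exact hl)).2.2
  have h0L : (0 : ℤ) ∉ L := fun h => (hLX 0 h).1 rfl
  -- a lower bound for the powers of the cardinality of `A`
  have hlow : ∀ j : ℕ, 1 ≤ j → j ≤ k + m → e * j ≤ ε / 2 →
      c * (n : ℝ) ^ ((j : ℝ) - ε) ≤ c₀ * (A.card : ℝ) ^ ((j : ℝ) - ε / 2) := by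
    intro j hj hjk hej
    have hjr : (1 : ℝ) ≤ j := by exact_mod_cast hj
    have hje : 0 ≤ (j : ℝ) - ε / 2 := by linarith
    have h3K : (1 : ℝ) ≤ 3 ^ K := one_le_pow₀ (by norm_num)
    have h1 : ((n : ℝ) ^ (1 - e) / 3 ^ K) ^ ((j : ℝ) - ε / 2) ≤
        (A.card : ℝ) ^ ((j : ℝ) - ε / 2) := Real.rpow_le_rpow (by positivity) hAc hje
    have h2 : (n : ℝ) ^ ((j : ℝ) - ε) / (3 ^ K) ^ (k + m) ≤
        ((n : ℝ) ^ (1 - e) / 3 ^ K) ^ ((j : ℝ) - ε / 2) := by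
      rw [Real.div_rpow (by positivity) (by positivity), ← Real.rpow_mul hn0.le]
      refine div_le_div₀ (by positivity) ?_ (by positivity) ?_
      · refine Real.rpow_le_rpow_of_exponent_le hn1 ?_
        have h3 : 0 ≤ e * (ε / 2) := by positivity
        have h4 : (1 - e) * ((j : ℝ) - ε / 2) = j - ε / 2 - e * j + e * (ε / 2) := by ring
        rw [h4]
        linarith
      · have h5 : ((3 : ℝ) ^ K) ^ (k + m) = ((3 : ℝ) ^ K) ^ ((k + m : ℕ) : ℝ) :=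
          (Real.rpow_natCast _ _).symm
        rw [h5]
        refine Real.rpow_le_rpow_of_exponent_le h3K ?_
        have : (j : ℝ) ≤ ((k + m : ℕ) : ℝ) := by exact_mod_cast hjk
        linarith
    calc c * (n : ℝ) ^ ((j : ℝ) - ε) ≤ c₀ / (3 ^ K) ^ (k + m) * (n : ℝ) ^ ((j : ℝ) - ε) :=
          mul_le_mul_of_nonneg_right (min_le_left _ _) (by positivity)
      _ = c₀ * ((n : ℝ) ^ ((j : ℝ) - ε) / (3 ^ K) ^ (k + m)) := by ring
      _ ≤ c₀ * (A.card : ℝ) ^ ((j : ℝ) - ε / 2) :=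
          mul_le_mul_of_nonneg_left (h2.trans h1) hc₀.le
  rcases HH A hAn with h | h
  · left
    obtain ⟨l, hl⟩ : L.Nonempty := card_pos.1 (by omega)
    have h1 : ((prodSet k A).card : ℝ) ≤ (prodSet k X).card := by
      exact_mod_cast prodSet_dil (hLX l hl).1 (hLX l hl).2.2
    exact (hlow k hk (by omega) hek).trans (h.trans h1)
  · right
    intro B hB
    have hBc : (1 : ℝ) ≤ B.card := by exact_mod_cast card_pos.2 hB
    have hLs : ∀ l ∈ L, |(l : ℝ)| ≤ (A.card : ℝ) ^ δ₀ := by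
      intro l hl
      refine (hLX l hl).2.1.trans ?_
      have h1 : ((n : ℝ) ^ (1 - e) / 3 ^ K) ^ δ₀ ≤ (A.card : ℝ) ^ δ₀ :=
        Real.rpow_le_rpow (by positivity) hAc hδ₀.le
      refine le_trans ?_ h1
      rw [Real.div_rpow (by positivity) (by positivity), ← Real.rpow_mul hn0.le,
        le_div_iff₀ (by positivity)]
      have h2 : ((3 : ℝ) ^ K) ^ δ₀ = 3 ^ ((K : ℝ) * δ₀) := by
        rw [← Real.rpow_natCast, ← Real.rpow_mul (by norm_num)]
      rw [h2]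
      calc (n : ℝ) ^ δ * 3 ^ ((K : ℝ) * δ₀) ≤ (n : ℝ) ^ δ * (n : ℝ) ^ δ :=
            mul_le_mul_of_nonneg_left h3n (by positivity)
        _ = (n : ℝ) ^ (2 * δ) := by
            rw [← Real.rpow_add hn0]
            congr 1
            ring
        _ ≤ (n : ℝ) ^ ((1 - e) * δ₀) :=
            Real.rpow_le_rpow_of_exponent_le hn1 (by linarith)
    obtain ⟨t, ht, hbig⟩ := exists_good hm hLc.ge (h L h0L hLs B hB)
    have h1 : ((dilateSum m t A B).card : ℝ) ≤ (sumPlus m X B).card := by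
      exact_mod_cast card_le_card (dilateSum_sub' fun i a ha => (hLX _ (ht i)).2.2 a ha)
    refine le_trans ?_ (hbig.trans h1)
    refine mul_le_mul (hlow m hm (by omega) hem) ?_ (by positivity) (by positivity)
    exact Real.rpow_le_rpow_of_exponent_le hBc (by linarith)

end Pool.Agent.T2H12.KR
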