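import Mathlib
import Pool.Agent.T2H12.KR.Base
import Pool.Agent.T2H12.KP.Asm8

/-!
# Sums of dilates and products of finite sets of integers: larger heights
-/

set_option autoImplicit false

namespace Pool.Agent.T2H12.KR

open Finset
open scoped Classical

/-- the case of non-zero integers -/
lemma baseL_ne (k m : ℕ) (hk : 1 ≤ k) {ε ε' : ℝ} (hε : 0 < ε) (hε' : 0 < ε') (hε1 : ε' ≤ 1) :
    ∃ (K : ℕ) (δ c : ℝ), 0 < δ ∧ 0 < c ∧ c ≤ 1 ∧ ∀ A : Finset ℤ, A.Nonempty → (0 : ℤ) ∉ A →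
      c * (A.card : ℝ) ^ ((k : ℝ) - ε) ≤ (prodSet k A).card ∨
      ∀ H : Finset ℤ, (0 : ℤ) ∉ H →
        (∀ h ∈ H, |(h : ℝ)| ≤ (A.card : ℝ) ^ (δ * Real.log (1 + Real.log A.card))) →
      ∀ B : Finset ℤ, B.Nonempty →
        (badTuples m H A B (c * ((A.card : ℝ) ^ m * B.card) ^ (1 - ε'))).card ≤
          K * H.card ^ (m - 1) := by
  rcases Nat.lt_or_ge k 2 with hk2 | hk2
  · -- one factor
    obtain rfl : k = 1 := by omega
    refine ⟨1, 1, 1, one_pos, one_pos, le_rfl, fun A hA _ => Or.inl ?_⟩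
    have hAc : (1 : ℝ) ≤ A.card := by exact_mod_cast card_pos.2 hA
    have h1 : A.card ≤ (prodSet 1 A).card := by
      refine card_le_card fun a ha => mem_image.2 ⟨fun _ => a, Fintype.mem_piFinset.2 fun _ => ha, ?_⟩
      simp
    have h2 : (A.card : ℝ) ≤ (prodSet 1 A).card := by exact_mod_cast h1
    rw [one_mul]
    refine le_trans ?_ h2
    conv_rhs => rw [← Real.rpow_one (A.card : ℝ)]
    exact Real.rpow_le_rpow_of_exponent_le hAc (by push_cast; linarith)
  · obtain ⟨k', rfl⟩ : ∃ k', k = k' + 1 := ⟨k - 1, by omega⟩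
    obtain ⟨K, δ, c₀, hδ, hc₀, HH⟩ := Pool.Agent.T2H12.KP.main8 k' (by omega) m (η := min ε 1)
      (lt_min hε one_pos) (min_le_right _ _) hε' hε1
    refine ⟨K, δ, min c₀ 1, hδ, lt_min hc₀ one_pos, min_le_right _ _, ?_⟩
    intro A hA h0
    have hAc : (1 : ℝ) ≤ A.card := by exact_mod_cast card_pos.2 hA
    by_cases hfew : ((Pool.Agent.Y359.PE.pk (k' + 1) A).card : ℝ) ≤
        (A.card : ℝ) ^ ((k' : ℝ) + 1 - min ε 1)
    · right
      intro H hH0 hH B hB
      refine le_trans (card_le_card ?_) (HH A hA h0 hfew H hH0 hH B hB)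
      intro l hl
      obtain ⟨h1, h2⟩ := mem_filter.1 hl
      refine mem_filter.2 ⟨h1, h2.trans_le ?_⟩
      exact mul_le_mul_of_nonneg_right (min_le_left _ _) (by positivity)
    · left
      rw [not_le] at hfew
      have h1 : ((Pool.Agent.Y359.PE.pk (k' + 1) A).card : ℝ) = (prodSet (k' + 1) A).card := rfl
      rw [h1] at hfew
      refine le_trans ?_ hfew.le
      have h2 : (A.card : ℝ) ^ (((k' + 1 : ℕ) : ℝ) - ε) ≤
          (A.card : ℝ) ^ ((k' : ℝ) + 1 - min ε 1) := by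
        refine Real.rpow_le_rpow_of_exponent_le hAc ?_
        have := min_le_left ε 1
        push_cast
        linarith
      have h3 : (0 : ℝ) ≤ (A.card : ℝ) ^ (((k' + 1 : ℕ) : ℝ) - ε) := by positivity
      have h4 : min c₀ 1 * (A.card : ℝ) ^ (((k' + 1 : ℕ) : ℝ) - ε) ≤
          1 * (A.card : ℝ) ^ (((k' + 1 : ℕ) : ℝ) - ε) :=
        mul_le_mul_of_nonneg_right (min_le_right _ _) h3
      linarith

/-- all finite non-empty sets of integers -/
lemma baseL (k m : ℕ) (hk : 1 ≤ k) {ε ε' : ℝ} (hε : 0 < ε) (hε' : 0 < ε') (hε1 : ε' ≤ 1) :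
    ∃ (K : ℕ) (δ c : ℝ), 0 < δ ∧ 0 < c ∧ c ≤ 1 ∧ ∀ A : Finset ℤ, A.Nonempty →
      c * (A.card : ℝ) ^ ((k : ℝ) - ε) ≤ (prodSet k A).card ∨
      ∀ H : Finset ℤ, (0 : ℤ) ∉ H →
        (∀ h ∈ H, |(h : ℝ)| ≤ (A.card : ℝ) ^ (δ * Real.log (1 + Real.log A.card))) →
      ∀ B : Finset ℤ, B.Nonempty →
        (badTuples m H A B (c * ((A.card : ℝ) ^ m * B.card) ^ (1 - ε'))).card ≤
          K * H.card ^ (m - 1) := by
  obtain ⟨K, δ, c, hδ, hc, hc1, HH⟩ := baseL_ne k m hk hε hε' hε1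
  have h4p : (1 : ℝ) ≤ 4 ^ (k + m) := one_le_pow₀ (by norm_num)
  have h4k : (1 : ℝ) ≤ 4 ^ k := one_le_pow₀ (by norm_num)
  have h4m : (1 : ℝ) ≤ 4 ^ m := one_le_pow₀ (by norm_num)
  have h2k : (2 : ℝ) ^ k ≤ 4 ^ k := pow_le_pow_left₀ (by norm_num) (by norm_num) k
  have h2m : (2 : ℝ) ^ m ≤ 4 ^ m := pow_le_pow_left₀ (by norm_num) (by norm_num) m
  have h4e : (4 : ℝ) ^ (k + m) = 4 ^ k * 4 ^ m := pow_add _ _ _
  refine ⟨K, δ / 4, c / 4 ^ (k + m), by positivity, by positivity,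
    (div_le_self hc.le h4p).trans hc1, fun A hA => ?_⟩
  have hcc : c / 4 ^ (k + m) ≤ c := div_le_self hc.le h4p
  have hx : (1 : ℝ) ≤ A.card := by exact_mod_cast card_pos.2 hA
  by_cases h0 : (0 : ℤ) ∈ A
  swap
  · refine (HH A hA h0).imp (fun h => ?_) fun h H hH0 hH B hB => ?_
    · exact (mul_le_mul_of_nonneg_right hcc (by positivity)).trans h
    · refine le_trans (card_le_card (badTuples_mono (Subset.refl _) ?_)) (h H hH0 (fun x hx' =>
        (hH x hx').trans (Pool.Agent.T2H12.KP.height_le hδ.le hx hx (by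
          linarith [Real.log_nonneg hx]))) B hB)
      exact mul_le_mul_of_nonneg_right hcc (by positivity)
  rcases lt_or_ge A.card 4 with hsm | hlg
  · -- at most three elements
    right
    intro H hH0 hH B hB
    rw [badTuples_empty hA, card_empty]
    · exact Nat.zero_le _
    have hB1 : (1 : ℝ) ≤ B.card := by exact_mod_cast card_pos.2 hB
    have h1 : (A.card : ℝ) ^ m ≤ 4 ^ m :=
      pow_le_pow_left₀ (by positivity) (by exact_mod_cast hsm.le) m
    have h2 : (1 : ℝ) ≤ (A.card : ℝ) ^ m * B.card := by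
      have := one_le_pow₀ hx (n := m)
      nlinarith
    have h3 : ((A.card : ℝ) ^ m * B.card) ^ (1 - ε') ≤ 4 ^ m * B.card := by
      calc ((A.card : ℝ) ^ m * B.card) ^ (1 - ε') ≤ ((A.card : ℝ) ^ m * B.card) ^ (1 : ℝ) :=
            Real.rpow_le_rpow_of_exponent_le h2 (by linarith)
        _ = (A.card : ℝ) ^ m * B.card := Real.rpow_one _
        _ ≤ 4 ^ m * B.card := mul_le_mul_of_nonneg_right h1 (by linarith)
    have h4 : c / 4 ^ (k + m) * 4 ^ m ≤ 1 := by
      rw [h4e, div_mul_eq_mul_div, div_le_one (by positivity)]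
      nlinarith [mul_le_mul_of_nonneg_right h4k (by linarith : (0 : ℝ) ≤ 4 ^ m)]
    calc c / 4 ^ (k + m) * ((A.card : ℝ) ^ m * B.card) ^ (1 - ε')
        ≤ c / 4 ^ (k + m) * (4 ^ m * B.card) := mul_le_mul_of_nonneg_left h3 (by positivity)
      _ = c / 4 ^ (k + m) * 4 ^ m * B.card := by ring
      _ ≤ 1 * B.card := mul_le_mul_of_nonneg_right h4 (by linarith)
      _ = B.card := one_mul _
  set A₀ := A.erase 0 with hA₀
  have hsub : A₀ ⊆ A := erase_subset _ _
  have hcard : A.card = A₀.card + 1 := by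
    rw [hA₀, card_erase_of_mem h0]
    omega
  have hne : A₀.Nonempty := card_pos.1 (by omega)
  have hy : (1 : ℝ) ≤ A₀.card := by exact_mod_cast card_pos.2 hne
  have hxy : (A.card : ℝ) ≤ 2 * A₀.card := by
    rw [hcard]
    push_cast
    linarith
  have hyx : (A₀.card : ℝ) ≤ A.card := by exact_mod_cast card_le_card hsub
  have hlg' : (4 : ℝ) ≤ A.card := by exact_mod_cast hlg
  have hsq : (A.card : ℝ) ^ (δ / 4 * Real.log (1 + Real.log A.card)) ≤
      (A₀.card : ℝ) ^ (δ * Real.log (1 + Real.log A₀.card)) := by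
    refine Pool.Agent.T2H12.KP.height_le hδ.le hx hy ?_
    have h1 : (A.card : ℝ) ≤ (A₀.card : ℝ) ^ 2 := by nlinarith
    have h2 := Real.log_le_log (by linarith) h1
    rw [Real.log_pow] at h2
    push_cast at h2
    exact h2
  rcases HH A₀ hne (notMem_erase _ _) with h | h
  · left
    have h3 : ((prodSet k A₀).card : ℝ) ≤ (prodSet k A).card := by
      exact_mod_cast card_le_card (prodSet_mono hsub)
    have h4 : c / 2 ^ k * (A.card : ℝ) ^ ((k : ℝ) - ε) ≤ c * (A₀.card : ℝ) ^ ((k : ℝ) - ε) :=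
      half_pow (e := (k : ℝ) - ε) (n := k) hc hx hxy hyx hy (by linarith)
    refine le_trans (mul_le_mul_of_nonneg_right ?_ (by positivity)) (h4.trans (h.trans h3))
    rw [h4e]
    refine div_le_div_of_nonneg_left hc.le (by positivity) ?_
    nlinarith
  · right
    intro H hH0 hH B hB
    refine le_trans (card_le_card (badTuples_mono hsub ?_)) (h H hH0 (fun x hx' =>
        (hH x hx').trans hsq) B hB)
    have hB1 : (1 : ℝ) ≤ B.card := by exact_mod_cast card_pos.2 hB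
    rw [div_mul_eq_mul_div, div_le_iff₀ (by positivity), mul_assoc]
    refine mul_le_mul_of_nonneg_left ?_ hc.le
    have h5 : (A.card : ℝ) ^ m * B.card ≤ 2 ^ m * ((A₀.card : ℝ) ^ m * B.card) := by
      rw [← mul_assoc, ← mul_pow]
      exact mul_le_mul_of_nonneg_right (pow_le_pow_left₀ (by linarith) hxy m) (by linarith)
    refine (Real.rpow_le_rpow (by positivity) h5 (by linarith)).trans ?_
    rw [Real.mul_rpow (by positivity) (by positivity), mul_comm]
    refine mul_le_mul_of_nonneg_left ?_ (by positivity)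
    have h6 : (1 : ℝ) ≤ (2 : ℝ) ^ m := one_le_pow₀ (by norm_num)
    calc ((2 : ℝ) ^ m) ^ (1 - ε') ≤ ((2 : ℝ) ^ m) ^ (1 : ℝ) :=
          Real.rpow_le_rpow_of_exponent_le h6 (by linarith)
      _ = 2 ^ m := Real.rpow_one _
      _ ≤ 4 ^ (k + m) := by
          rw [h4e]
          nlinarith [mul_le_mul_of_nonneg_right h4k (by linarith : (0 : ℝ) ≤ 4 ^ m)]

/-- **Many products, or almost all sums of dilates are large.** -/
theorem shapeL (k m : ℕ) (hk : 1 ≤ k) (hm : 1 ≤ m) {ε : ℝ} (hε : 0 < ε) :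
    ∃ (K : ℕ) (δ c : ℝ), 0 < δ ∧ 0 < c ∧ c ≤ 1 ∧ ∀ A : Finset ℤ, A.Nonempty →
      c * (A.card : ℝ) ^ ((k : ℝ) - ε) ≤ (prodSet k A).card ∨
      ∀ H : Finset ℤ, (0 : ℤ) ∉ H →
        (∀ h ∈ H, |(h : ℝ)| ≤ (A.card : ℝ) ^ (δ * Real.log (1 + Real.log A.card))) →
      ∀ B : Finset ℤ, B.Nonempty →
        (badTuples m H A B (c * (A.card : ℝ) ^ ((m : ℝ) - ε) * (B.card : ℝ) ^ (1 - ε))).card ≤
          K * H.card ^ (m - 1) := by
  have hmr : (1 : ℝ) ≤ m := by exact_mod_cast hm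
  have hm0 : (0 : ℝ) < m := by linarith
  set ε' : ℝ := min ε 1 / m with hεd
  have hmin : 0 < min ε 1 := lt_min hε one_pos
  have hε' : 0 < ε' := by positivity
  have hke : m * ε' = min ε 1 := by
    rw [hεd]
    field_simp
  have hke1 : m * ε' ≤ ε := by
    rw [hke]
    exact min_le_left _ _
  have hε1 : ε' ≤ 1 := by
    have := min_le_right ε 1
    nlinarith
  have hee : ε' ≤ ε := by nlinarith
  obtain ⟨K, δ, c, hδ, hc, hc1, HH⟩ := baseL k m hk hε hε' hε1
  refine ⟨K, δ, c, hδ, hc, hc1, fun A hA => ?_⟩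
  have hAc : (1 : ℝ) ≤ A.card := by exact_mod_cast card_pos.2 hA
  have hA0 : (0 : ℝ) < A.card := by linarith
  refine (HH A hA).imp id fun h H hH0 hH B hB => ?_
  refine le_trans (card_le_card (badTuples_mono (Subset.refl _) ?_)) (h H hH0 hH B hB)
  have hBc : (1 : ℝ) ≤ B.card := by exact_mod_cast card_pos.2 hB
  rw [mul_assoc]
  refine mul_le_mul_of_nonneg_left ?_ hc.le
  have hpow : ((A.card : ℝ) ^ m * B.card) ^ (1 - ε') =
      (A.card : ℝ) ^ ((m : ℝ) - m * ε') * (B.card : ℝ) ^ (1 - ε') := by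
    rw [Real.mul_rpow (by positivity) (by positivity), ← Real.rpow_natCast,
      ← Real.rpow_mul hA0.le]
    congr 2
    ring
  rw [hpow]
  exact mul_le_mul (Real.rpow_le_rpow_of_exponent_le hAc (by linarith))
    (Real.rpow_le_rpow_of_exponent_le hBc (by linarith)) (by positivity) (by positivity)


end Pool.Agent.T2H12.KR
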