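import Mathlib
import Pool.Agent.T2H12.KR.Base

/-!
# Rational multipliers
-/

set_option autoImplicit false

namespace Pool.Agent.T2H12.KR

open Finset
open scoped Classical

/-- The set `h A + B`. -/
def oneSum (h : ℚ) (A : Finset ℤ) (B : Finset ℚ) : Finset ℚ :=
  (A ×ˢ B).image fun s => h * (s.1 : ℚ) + s.2

/-- The set `l 0 A + l 1 A + ... + l (m - 1) A + B`, with rational numbers `l i`. -/
def dilateSumQ (m : ℕ) (l : Fin m → ℚ) (A : Finset ℤ) (B : Finset ℚ) : Finset ℚ :=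
  ((Fintype.piFinset fun _ : Fin m => A) ×ˢ B).image fun s => ∑ i, l i * (s.1 i : ℚ) + s.2

/-- The tuples of elements of `H` for which `l 0 A + ... + l (m - 1) A + B` has fewer than `x`
elements. -/
noncomputable def badTuplesQ (m : ℕ) (H : Finset ℚ) (A : Finset ℤ) (B : Finset ℚ) (x : ℝ) :
    Finset (Fin m → ℚ) :=
  (Fintype.piFinset fun _ : Fin m => H).filter fun l => ((dilateSumQ m l A B).card : ℝ) < x

/-- the integer `D q`, if the denominator of `q` divides `D` -/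
def zz (D : ℕ) (q : ℚ) : ℤ := q.num * ((D / q.den : ℕ) : ℤ)

lemma zz_eq {D : ℕ} {q : ℚ} (h : q.den ∣ D) : ((zz D q : ℤ) : ℚ) = D * q := by
  obtain ⟨e, rfl⟩ := h
  have hq : (q.den : ℚ) ≠ 0 := by exact_mod_cast q.den_nz
  unfold zz
  rw [Nat.mul_div_cancel_left _ (Nat.pos_of_ne_zero q.den_nz)]
  push_cast
  have h1 : (q.num : ℚ) = q * q.den := (Rat.mul_den_eq_num q).symm
  rw [h1]
  ring

lemma prodSet_scale {k : ℕ} {D : ℤ} (hD : D ≠ 0) (A : Finset ℤ) :
    (prodSet k (A.image fun a => D * a)).card = (prodSet k A).card := by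
  have h1 : prodSet k (A.image fun a => D * a) = (prodSet k A).image fun x => D ^ k * x := by
    ext x
    constructor
    · intro hx
      obtain ⟨f, hf, rfl⟩ := mem_image.1 hx
      have h2 : ∀ i, ∃ a ∈ A, D * a = f i := fun i => mem_image.1 (Fintype.mem_piFinset.1 hf i)
      choose g hg hgf using h2
      refine mem_image.2 ⟨∏ i, g i, mem_image.2 ⟨g, Fintype.mem_piFinset.2 hg, rfl⟩, ?_⟩
      rw [← prod_congr rfl fun i _ => hgf i, prod_mul_distrib]
      simp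
    · intro hx
      obtain ⟨y, hy, rfl⟩ := mem_image.1 hx
      obtain ⟨g, hg, rfl⟩ := mem_image.1 hy
      refine mem_image.2 ⟨fun i => D * g i, Fintype.mem_piFinset.2 fun i =>
        mem_image.2 ⟨g i, Fintype.mem_piFinset.1 hg i, rfl⟩, ?_⟩
      simp [prod_mul_distrib]
  rw [h1]
  exact card_image_of_injective _ fun x y hxy => mul_left_cancel₀ (pow_ne_zero k hD) hxy

/-- one rational multiplier -/
theorem one_rat (k : ℕ) (hk : 1 ≤ k) {ε : ℝ} (hε : 0 < ε) :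
    ∃ (K : ℕ) (δ c : ℝ), 0 < δ ∧ 0 < c ∧ c ≤ 1 ∧ ∀ A : Finset ℤ, A.Nonempty →
      c * (A.card : ℝ) ^ ((k : ℝ) - ε) ≤ (prodSet k A).card ∨
      ∀ H : Finset ℚ, (0 : ℚ) ∉ H →
        (∀ h ∈ H, |(h.num : ℝ)| ≤ (A.card : ℝ) ^ δ ∧ (h.den : ℝ) ≤ (A.card : ℝ) ^ δ) →
      ∀ B : Finset ℚ, B.Nonempty →
        (H.filter fun h => ((oneSum h A B).card : ℝ) <
          c * (A.card : ℝ) ^ (1 - ε) * (B.card : ℝ) ^ (1 - ε)).card ≤ K := by
  obtain ⟨K, δ₀, c, hδ₀, hc, hc1, HH⟩ := shape k 1 hk le_rfl hε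
  have hK0 : (0 : ℝ) < (K : ℝ) + 2 := by positivity
  refine ⟨K, δ₀ / (K + 2), c, by positivity, hc, hc1, ?_⟩
  intro A hA
  by_cases hfirst : c * (A.card : ℝ) ^ ((k : ℝ) - ε) ≤ (prodSet k A).card
  · exact Or.inl hfirst
  right
  intro H h0 hH B hB
  by_contra hcon
  push Not at hcon
  obtain ⟨T, hT, hTc'⟩ := exists_subset_card_eq (Nat.succ_le_of_lt hcon)
  have hTc : T.card = K + 1 := hTc'
  have hA1 : (1 : ℝ) ≤ A.card := by exact_mod_cast card_pos.2 hA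
  have hA0 : (0 : ℝ) < A.card := by linarith
  obtain ⟨δ, hδ⟩ : ∃ δ : ℝ, δ = δ₀ / (K + 2) := ⟨_, rfl⟩
  rw [← hδ] at hH
  have hδ0 : 0 < δ := by rw [hδ]; positivity
  have hδK : δ * (K + 2) = δ₀ := by rw [hδ]; field_simp
  have hTH : ∀ h ∈ T, h ∈ H := fun h hh => (mem_filter.1 (hT hh)).1
  -- denominators
  obtain ⟨D₁, hD₁⟩ : ∃ D : ℕ, D = ∏ h ∈ T, h.den := ⟨_, rfl⟩
  obtain ⟨D₂, hD₂⟩ : ∃ D : ℕ, D = ∏ b ∈ B, b.den := ⟨_, rfl⟩
  have hD₁0 : D₁ ≠ 0 := by
    rw [hD₁]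
    exact prod_ne_zero_iff.2 fun h _ => h.den_nz
  have hD₂0 : D₂ ≠ 0 := by
    rw [hD₂]
    exact prod_ne_zero_iff.2 fun h _ => h.den_nz
  have hdvd₁ : ∀ h ∈ T, h.den ∣ D₁ := fun h hh => by
    rw [hD₁]
    exact dvd_prod_of_mem _ hh
  have hdvd₂ : ∀ b ∈ B, b.den ∣ D₁ * D₂ := fun b hb => by
    rw [hD₂]
    exact (dvd_prod_of_mem _ hb).mul_left _
  have hq1 : (D₁ : ℚ) ≠ 0 := by exact_mod_cast hD₁0
  have hq2 : (D₂ : ℚ) ≠ 0 := by exact_mod_cast hD₂0
  obtain ⟨A', hA'⟩ : ∃ A' : Finset ℤ, A' = A.image fun a => (D₂ : ℤ) * a := ⟨_, rfl⟩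
  obtain ⟨B', hB'⟩ : ∃ B' : Finset ℤ, B' = B.image fun b => zz (D₁ * D₂) b := ⟨_, rfl⟩
  obtain ⟨H', hH'⟩ : ∃ H' : Finset ℤ, H' = T.image fun h => zz D₁ h := ⟨_, rfl⟩
  have hD₂z : (D₂ : ℤ) ≠ 0 := by exact_mod_cast hD₂0
  have hA'c : A'.card = A.card := by
    rw [hA']
    exact card_image_of_injective _ fun x y hxy => mul_left_cancel₀ hD₂z hxy
  have hB'c : B'.card = B.card := by
    rw [hB']
    refine card_image_of_injOn fun x hx y hy hxy => ?_
    have h0 : zz (D₁ * D₂) x = zz (D₁ * D₂) y := hxy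
    have h1 : ((zz (D₁ * D₂) x : ℤ) : ℚ) = ((zz (D₁ * D₂) y : ℤ) : ℚ) := by rw [h0]
    rw [zz_eq (hdvd₂ x hx), zz_eq (hdvd₂ y hy)] at h1
    exact mul_left_cancel₀ (by push_cast; exact mul_ne_zero hq1 hq2) h1
  have hinj : Set.InjOn (fun h => zz D₁ h) (T : Set ℚ) := by
    intro x hx y hy hxy
    have h0 : zz D₁ x = zz D₁ y := hxy
    have h1 : ((zz D₁ x : ℤ) : ℚ) = ((zz D₁ y : ℤ) : ℚ) := by rw [h0]
    rw [zz_eq (hdvd₁ x hx), zz_eq (hdvd₁ y hy)] at h1
    exact mul_left_cancel₀ hq1 h1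
  have hA'n : A'.Nonempty := by rw [hA']; exact hA.image _
  have hB'n : B'.Nonempty := by rw [hB']; exact hB.image _
  rcases HH A' hA'n with h | h
  · rw [hA'c, hA', prodSet_scale hD₂z] at h
    exact hfirst h
  have h0' : (0 : ℤ) ∉ H' := by
    rw [hH']
    intro hz
    obtain ⟨x, hx, hx0⟩ := mem_image.1 hz
    have h1 := zz_eq (hdvd₁ x hx)
    rw [hx0] at h1
    have h2 : x = 0 := by
      rcases mul_eq_zero.1 h1.symm with h3 | h3
      · exact absurd h3 hq1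
      · exact h3
    exact h0 (h2 ▸ hTH x hx)
  have hH'b : ∀ z ∈ H', |(z : ℝ)| ≤ (A'.card : ℝ) ^ δ₀ := by
    intro z hz
    rw [hH'] at hz
    obtain ⟨x, hx, rfl⟩ := mem_image.1 hz
    obtain ⟨hx1, -⟩ := hH x (hTH x hx)
    have h2 : ((D₁ / x.den : ℕ) : ℝ) ≤ ((A.card : ℝ) ^ δ) ^ (K + 1) := by
      have h3 : D₁ / x.den ≤ D₁ := Nat.div_le_self _ _
      have h4 : (D₁ : ℝ) ≤ ((A.card : ℝ) ^ δ) ^ (K + 1) := by
        rw [hD₁, Nat.cast_prod, ← hTc]
        calc ∏ h ∈ T, (h.den : ℝ) ≤ ∏ _h ∈ T, (A.card : ℝ) ^ δ :=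
              prod_le_prod (fun h _ => Nat.cast_nonneg _) fun h hh => (hH h (hTH h hh)).2
          _ = ((A.card : ℝ) ^ δ) ^ T.card := by rw [prod_const]
      exact le_trans (by exact_mod_cast h3) h4
    unfold zz
    rw [Int.cast_mul, Int.cast_natCast]
    rw [abs_mul, abs_of_nonneg (by positivity : (0 : ℝ) ≤ ((D₁ / x.den : ℕ) : ℝ)), hA'c]
    calc |(x.num : ℝ)| * ((D₁ / x.den : ℕ) : ℝ) ≤
          (A.card : ℝ) ^ δ * ((A.card : ℝ) ^ δ) ^ (K + 1) :=
          mul_le_mul hx1 h2 (by positivity) (by positivity)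
      _ = ((A.card : ℝ) ^ δ) ^ (K + 2) := by ring
      _ = (A.card : ℝ) ^ δ₀ := by
          rw [← Real.rpow_natCast, ← Real.rpow_mul hA0.le]
          push_cast
          rw [hδK]
  have hbad := h H' h0' hH'b B' hB'n
  rw [Nat.sub_self, pow_zero, mul_one] at hbad
  -- all the tuples are bad
  have hall : (T.image fun h => (fun _ : Fin 1 => zz D₁ h)) ⊆
      badTuples 1 H' A' B' (c * (A'.card : ℝ) ^ (((1 : ℕ) : ℝ) - ε) * (B'.card : ℝ) ^ (1 - ε)) := by
    intro l hl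
    obtain ⟨x, hx, rfl⟩ := mem_image.1 hl
    refine mem_filter.2 ⟨Fintype.mem_piFinset.2 fun _ => ?_, ?_⟩
    · rw [hH']
      exact mem_image_of_mem _ hx
    · rw [hA'c, hB'c, Nat.cast_one]
      refine lt_of_le_of_lt ?_ (mem_filter.1 (hT hx)).2
      have h2 : (dilateSum 1 (fun _ => zz D₁ x) A' B').card ≤ (oneSum x A B).card := by
        refine card_le_card_of_injOn (fun z => (z : ℚ) / (D₁ * D₂)) ?_ ?_
        · intro z hz
          obtain ⟨⟨f, b⟩, hfb, rfl⟩ := mem_image.1 (mem_coe.1 hz)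
          obtain ⟨hf, hb⟩ := mem_product.1 hfb
          have hf0 := Fintype.mem_piFinset.1 hf 0
          rw [hA'] at hf0
          obtain ⟨a, ha, hfa⟩ := mem_image.1 hf0
          simp only at hb
          rw [hB'] at hb
          obtain ⟨b', hb', rfl⟩ := mem_image.1 hb
          refine mem_coe.2 (mem_image.2 ⟨(a, b'), mem_product.2 ⟨ha, hb'⟩, ?_⟩)
          have hfa' : (D₂ : ℤ) * a = f 0 := hfa
          simp only [Fin.sum_univ_one]
          rw [← hfa']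
          push_cast
          rw [zz_eq (hdvd₁ x hx), zz_eq (hdvd₂ b' hb')]
          push_cast
          field_simp
        · intro z _ w _ hzw
          simp only at hzw
          have h3 : (D₁ * D₂ : ℚ) ≠ 0 := mul_ne_zero hq1 hq2
          have h4 : (z : ℚ) = w := by
            field_simp at hzw
            exact hzw
          exact_mod_cast h4
      exact_mod_cast h2
  have h5 := card_le_card hall
  rw [card_image_of_injOn, hTc] at h5
  · omega
  · intro x hx y hy hxy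
    exact hinj hx hy (congrFun hxy 0)

lemma dilateSumQ_nonempty {m : ℕ} {l : Fin m → ℚ} {A : Finset ℤ} {B : Finset ℚ}
    (hA : A.Nonempty) (hB : B.Nonempty) : (dilateSumQ m l A B).Nonempty := by
  obtain ⟨a, ha⟩ := hA
  obtain ⟨b, hb⟩ := hB
  exact ⟨_, mem_image.2 ⟨(fun _ => a, b), mem_product.2 ⟨Fintype.mem_piFinset.2 fun _ => ha, hb⟩,
    rfl⟩⟩

lemma oneSum_sub {m : ℕ} {l : Fin (m + 1) → ℚ} {A : Finset ℤ} {B : Finset ℚ} :
    oneSum (l (Fin.last m)) A (dilateSumQ m (fun i => l i.castSucc) A B) ⊆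
      dilateSumQ (m + 1) l A B := by
  intro x hx
  obtain ⟨⟨a, y⟩, hay, rfl⟩ := mem_image.1 hx
  obtain ⟨ha, hy⟩ := mem_product.1 hay
  obtain ⟨⟨f, b⟩, hfb, hfy⟩ := mem_image.1 hy
  obtain ⟨hf, hb⟩ := mem_product.1 hfb
  refine mem_image.2 ⟨(Fin.snoc f a, b), mem_product.2 ⟨Fintype.mem_piFinset.2 fun i => ?_, hb⟩, ?_⟩
  · refine Fin.lastCases ?_ (fun j => ?_) i
    · simpa using ha
    · simpa using Fintype.mem_piFinset.1 hf j
  · simp only at hfy ⊢
    rw [Fin.sum_univ_castSucc, ← hfy]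
    simp only [Fin.snoc_castSucc, Fin.snoc_last]
    ring

/-- the bad tuples of length `m + 1` -/
lemma badQ_succ {m : ℕ} (hm : 1 ≤ m) {H : Finset ℚ} {A : Finset ℤ} {B : Finset ℚ} {K K' : ℕ}
    {x y z : ℝ} (h1 : (badTuplesQ m H A B x).card ≤ K * H.card ^ (m - 1))
    (h2 : ∀ B' : Finset ℚ, x ≤ B'.card → (H.filter fun h => ((oneSum h A B').card : ℝ) < y).card ≤ K')
    (hzy : z ≤ y) :
    (badTuplesQ (m + 1) H A B z).card ≤ (K + K') * H.card ^ (m + 1 - 1) := by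
  obtain ⟨g, hg⟩ : ∃ g : (Fin (m + 1) → ℚ) → (Fin m → ℚ) × ℚ,
      g = fun l => (fun i => l i.castSucc, l (Fin.last m)) := ⟨_, rfl⟩
  have hginj : Function.Injective g := by
    intro l l' hll
    rw [hg] at hll
    have e1 : (fun i : Fin m => l i.castSucc) = fun i => l' i.castSucc := congrArg Prod.fst hll
    have e2 : l (Fin.last m) = l' (Fin.last m) := congrArg Prod.snd hll
    funext i
    refine Fin.lastCases e2 (fun j => ?_) i
    exact congrFun e1 j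
  obtain ⟨P, hP⟩ : ∃ P : Finset (Fin m → ℚ), P = Fintype.piFinset fun _ : Fin m => H := ⟨_, rfl⟩
  have hsub : (badTuplesQ (m + 1) H A B z).image g ⊆ ((badTuplesQ m H A B x) ×ˢ H) ∪
      (P.filter fun l => x ≤ (dilateSumQ m l A B).card).biUnion fun l =>
        (H.filter fun h => ((oneSum h A (dilateSumQ m l A B)).card : ℝ) < y).image fun h => (l, h)
      := by
    intro u hu
    obtain ⟨l, hl, rfl⟩ := mem_image.1 hu
    obtain ⟨hlH, hlb⟩ := mem_filter.1 hl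
    have hlH' := Fintype.mem_piFinset.1 hlH
    rw [hg]
    rcases lt_or_ge ((dilateSumQ m (fun i => l i.castSucc) A B).card : ℝ) x with hx | hx
    · refine mem_union_left _ (mem_product.2 ⟨mem_filter.2 ⟨Fintype.mem_piFinset.2 fun i =>
        hlH' _, hx⟩, hlH' _⟩)
    · refine mem_union_right _ (mem_biUnion.2 ⟨fun i => l i.castSucc, mem_filter.2 ⟨?_, hx⟩,
        mem_image.2 ⟨l (Fin.last m), mem_filter.2 ⟨hlH' _, ?_⟩, rfl⟩⟩)
      · rw [hP]
        exact Fintype.mem_piFinset.2 fun i => hlH' _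
      · have h3 : ((oneSum (l (Fin.last m)) A (dilateSumQ m (fun i => l i.castSucc) A B)).card : ℝ)
            ≤ (dilateSumQ (m + 1) l A B).card := by exact_mod_cast card_le_card oneSum_sub
        linarith
  have hPc : P.card = H.card ^ m := by
    rw [hP, Fintype.card_piFinset]
    simp
  calc (badTuplesQ (m + 1) H A B z).card = ((badTuplesQ (m + 1) H A B z).image g).card :=
        (card_image_of_injective _ hginj).symm
    _ ≤ _ := card_le_card hsub
    _ ≤ _ := card_union_le _ _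
    _ ≤ K * H.card ^ (m - 1) * H.card + P.card * K' := by
        refine Nat.add_le_add ?_ ?_
        · rw [card_product]
          exact Nat.mul_le_mul_right _ h1
        · refine (card_biUnion_le_card_mul _ _ K' fun l hl => ?_).trans
            (Nat.mul_le_mul_right _ (card_filter_le _ _))
          exact card_image_le.trans (h2 _ (mem_filter.1 hl).2)
    _ = (K + K') * H.card ^ (m + 1 - 1) := by
        rw [hPc, Nat.add_sub_cancel, mul_assoc, ← pow_succ, Nat.sub_add_cancel hm]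
        ring

/-- **Rational multipliers**, `ε ≤ 1`. -/
theorem rat_main (k : ℕ) (hk : 1 ≤ k) : ∀ m : ℕ, 1 ≤ m → ∀ ε : ℝ, 0 < ε → ε ≤ 1 →
    ∃ (K : ℕ) (δ c : ℝ), 0 < δ ∧ 0 < c ∧ c ≤ 1 ∧ ∀ A : Finset ℤ, A.Nonempty →
      c * (A.card : ℝ) ^ ((k : ℝ) - ε) ≤ (prodSet k A).card ∨
      ∀ H : Finset ℚ, (0 : ℚ) ∉ H →
        (∀ h ∈ H, |(h.num : ℝ)| ≤ (A.card : ℝ) ^ δ ∧ (h.den : ℝ) ≤ (A.card : ℝ) ^ δ) →
      ∀ B : Finset ℚ, B.Nonempty →
        (badTuplesQ m H A B (c * (A.card : ℝ) ^ ((m : ℝ) - ε) * (B.card : ℝ) ^ (1 - ε))).card ≤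
          K * H.card ^ (m - 1) := by
  intro m hm
  induction m, hm using Nat.le_induction with
  | base =>
    intro ε hε hε1
    obtain ⟨K, δ, c, hδ, hc, hc1, HH⟩ := one_rat k hk hε
    refine ⟨K, δ, c, hδ, hc, hc1, fun A hA => (HH A hA).imp id fun h H h0 hH B hB => ?_⟩
    rw [Nat.sub_self, pow_zero, mul_one]
    refine le_trans ?_ (h H h0 hH B hB)
    refine card_le_card_of_injOn (fun l => l 0) ?_ ?_
    · intro l hl
      obtain ⟨h1, h2⟩ := mem_filter.1 (mem_coe.1 hl)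
      refine mem_coe.2 (mem_filter.2 ⟨Fintype.mem_piFinset.1 h1 0, ?_⟩)
      rw [Nat.cast_one] at h2
      refine lt_of_le_of_lt ?_ h2
      have h3 : oneSum (l 0) A B ⊆ dilateSumQ 1 l A B := by
        intro x hx
        obtain ⟨⟨a, b⟩, hab, rfl⟩ := mem_image.1 hx
        obtain ⟨ha, hb⟩ := mem_product.1 hab
        refine mem_image.2 ⟨(fun _ => a, b), mem_product.2 ⟨Fintype.mem_piFinset.2 fun _ => ha, hb⟩,
          ?_⟩
        simp
      exact_mod_cast card_le_card h3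
    · intro l _ l' _ hll
      funext i
      rw [Subsingleton.elim i 0]
      exact hll
  | succ m hm ih =>
    intro ε hε hε1
    have hmr : (1 : ℝ) ≤ m := by exact_mod_cast hm
    obtain ⟨ε', hε'⟩ : ∃ ε' : ℝ, ε' = ε / (m + 3) := ⟨_, rfl⟩
    have hε'0 : 0 < ε' := by rw [hε']; positivity
    have hεm : ε' * (m + 3) = ε := by rw [hε']; field_simp
    have hε'ε : ε' ≤ ε := by
      rw [← hεm]
      nlinarith
    have hε'1 : ε' ≤ 1 := hε'ε.trans hε1
    obtain ⟨K, δ, c, hδ, hc, hc1, HH⟩ := ih ε' hε'0 hε'1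
    obtain ⟨K', δ', c', hδ', hc', hc1', HH'⟩ := one_rat k hk hε'0
    refine ⟨K + K', min δ δ', c * c', lt_min hδ hδ', mul_pos hc hc', mul_le_one₀ hc1 hc'.le hc1',
      ?_⟩
    intro A hA
    have hA1 : (1 : ℝ) ≤ A.card := by exact_mod_cast card_pos.2 hA
    have hA0 : (0 : ℝ) < A.card := by linarith
    have hfirst : ∀ c₁ : ℝ, c * c' ≤ c₁ → c₁ * (A.card : ℝ) ^ ((k : ℝ) - ε') ≤ (prodSet k A).card →
        c * c' * (A.card : ℝ) ^ ((k : ℝ) - ε) ≤ (prodSet k A).card := by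
      intro c₁ hcc h
      refine le_trans ?_ h
      exact mul_le_mul hcc (Real.rpow_le_rpow_of_exponent_le hA1 (by linarith)) (by positivity)
        (le_trans (by positivity) hcc)
    have hcc1 : c * c' ≤ c := mul_le_of_le_one_right hc.le hc1'
    have hcc2 : c * c' ≤ c' := mul_le_of_le_one_left hc'.le hc1
    rcases HH A hA with h | h
    · exact Or.inl (hfirst c hcc1 h)
    rcases HH' A hA with h' | h'
    · exact Or.inl (hfirst c' hcc2 h')
    right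
    intro H h0 hH B hB
    have hB1 : (1 : ℝ) ≤ B.card := by exact_mod_cast card_pos.2 hB
    have hB0 : (0 : ℝ) < B.card := by linarith
    have hHδ : ∀ h ∈ H, |(h.num : ℝ)| ≤ (A.card : ℝ) ^ δ ∧ (h.den : ℝ) ≤ (A.card : ℝ) ^ δ := by
      intro q hq
      have h1 : (A.card : ℝ) ^ min δ δ' ≤ (A.card : ℝ) ^ δ :=
        Real.rpow_le_rpow_of_exponent_le hA1 (min_le_left _ _)
      exact ⟨(hH q hq).1.trans h1, (hH q hq).2.trans h1⟩
    have hHδ' : ∀ h ∈ H, |(h.num : ℝ)| ≤ (A.card : ℝ) ^ δ' ∧ (h.den : ℝ) ≤ (A.card : ℝ) ^ δ' := by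
      intro q hq
      have h1 : (A.card : ℝ) ^ min δ δ' ≤ (A.card : ℝ) ^ δ' :=
        Real.rpow_le_rpow_of_exponent_le hA1 (min_le_right _ _)
      exact ⟨(hH q hq).1.trans h1, (hH q hq).2.trans h1⟩
    obtain ⟨x, hx⟩ : ∃ x : ℝ, x = c * (A.card : ℝ) ^ ((m : ℝ) - ε') * (B.card : ℝ) ^ (1 - ε') :=
      ⟨_, rfl⟩
    have hx0 : 0 < x := by rw [hx]; positivity
    refine badQ_succ hm (x := x) (y := c' * (A.card : ℝ) ^ (1 - ε') * x ^ (1 - ε')) ?_ ?_ ?_
    · rw [hx]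
      exact h H h0 hHδ B hB
    · intro B' hB'
      have hB'0 : (0 : ℝ) < B'.card := lt_of_lt_of_le hx0 hB'
      have hB'n : B'.Nonempty := card_pos.1 (by exact_mod_cast hB'0)
      refine le_trans (card_le_card ?_) (h' H h0 hHδ' B' hB'n)
      intro q hq
      obtain ⟨hq1, hq2⟩ := mem_filter.1 hq
      refine mem_filter.2 ⟨hq1, lt_of_lt_of_le hq2 ?_⟩
      exact mul_le_mul_of_nonneg_left (Real.rpow_le_rpow hx0.le hB' (by linarith)) (by positivity)
    · -- the exponents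
      have h1 : x ^ (1 - ε') = c ^ (1 - ε') * (A.card : ℝ) ^ (((m : ℝ) - ε') * (1 - ε')) *
          (B.card : ℝ) ^ ((1 - ε') * (1 - ε')) := by
        rw [hx, Real.mul_rpow (by positivity) (by positivity),
          Real.mul_rpow (by positivity) (by positivity), ← Real.rpow_mul hA0.le,
          ← Real.rpow_mul hB0.le]
      have h2 : c ≤ c ^ (1 - ε') := by
        have h3 : c ^ (1 : ℝ) ≤ c ^ (1 - ε') :=
          Real.rpow_le_rpow_of_exponent_ge hc hc1 (by linarith)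
        rwa [Real.rpow_one] at h3
      have h4 : (B.card : ℝ) ^ (1 - ε) ≤ (B.card : ℝ) ^ ((1 - ε') * (1 - ε')) := by
        refine Real.rpow_le_rpow_of_exponent_le hB1 ?_
        nlinarith
      have h5 : (A.card : ℝ) ^ (((m + 1 : ℕ) : ℝ) - ε) ≤
          (A.card : ℝ) ^ (1 - ε') * (A.card : ℝ) ^ (((m : ℝ) - ε') * (1 - ε')) := by
        rw [← Real.rpow_add hA0]
        refine Real.rpow_le_rpow_of_exponent_le hA1 ?_
        push_cast
        nlinarith
      rw [h1]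
      calc c * c' * (A.card : ℝ) ^ (((m + 1 : ℕ) : ℝ) - ε) * (B.card : ℝ) ^ (1 - ε) ≤
            c ^ (1 - ε') * c' * ((A.card : ℝ) ^ (1 - ε') *
              (A.card : ℝ) ^ (((m : ℝ) - ε') * (1 - ε'))) *
              (B.card : ℝ) ^ ((1 - ε') * (1 - ε')) := by
            gcongr
        _ = _ := by ring

/-- **Rational multipliers.** -/
theorem rat_main' (k m : ℕ) (hk : 1 ≤ k) (hm : 1 ≤ m) {ε : ℝ} (hε : 0 < ε) :
    ∃ (K : ℕ) (δ c : ℝ), 0 < δ ∧ 0 < c ∧ ∀ A : Finset ℤ, A.Nonempty →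
      c * (A.card : ℝ) ^ ((k : ℝ) - ε) ≤ (prodSet k A).card ∨
      ∀ H : Finset ℚ, (0 : ℚ) ∉ H →
        (∀ h ∈ H, |(h.num : ℝ)| ≤ (A.card : ℝ) ^ δ ∧ (h.den : ℝ) ≤ (A.card : ℝ) ^ δ) →
      ∀ B : Finset ℚ, B.Nonempty →
        (badTuplesQ m H A B (c * (A.card : ℝ) ^ ((m : ℝ) - ε) * (B.card : ℝ) ^ (1 - ε))).card ≤
          K * H.card ^ (m - 1) := by
  obtain ⟨K, δ, c, hδ, hc, -, HH⟩ := rat_main k hk m hm (min ε 1) (by positivity)
    (min_le_right _ _)
  refine ⟨K, δ, c, hδ, hc, fun A hA => ?_⟩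
  have hA1 : (1 : ℝ) ≤ A.card := by exact_mod_cast card_pos.2 hA
  have hle : min ε 1 ≤ ε := min_le_left _ _
  refine (HH A hA).imp (fun h => le_trans ?_ h) fun h H h0 hH B hB => ?_
  · exact mul_le_mul_of_nonneg_left
      (Real.rpow_le_rpow_of_exponent_le hA1 (by linarith)) hc.le
  · have hB1 : (1 : ℝ) ≤ B.card := by exact_mod_cast card_pos.2 hB
    refine le_trans (card_le_card ?_) (h H h0 hH B hB)
    intro l hl
    obtain ⟨h1, h2⟩ := mem_filter.1 hl
    refine mem_filter.2 ⟨h1, lt_of_lt_of_le h2 ?_⟩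
    refine mul_le_mul (mul_le_mul_of_nonneg_left
      (Real.rpow_le_rpow_of_exponent_le hA1 (by linarith)) hc.le)
      (Real.rpow_le_rpow_of_exponent_le hB1 (by linarith)) (by positivity) (by positivity)

end Pool.Agent.T2H12.KR
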