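import Mathlib
import Pool.Agent.T2H12.KR.Sel3
import Pool.Agent.R849.SV.Main

/-!
# Almost all bounded additive perturbations of a finite set of integers
-/

set_option autoImplicit false

namespace Pool.Agent.T2H12.KR

open Finset
open scoped Classical

/-- The set of all products of `k` elements of `X`. -/
def products (k : ℕ) (X : Finset ℤ) : Finset ℤ :=
  (Fintype.piFinset fun _ : Fin k => X).image fun g => ∏ i, g i

/-- The functions `j : A → T` for which some set `X` with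
`{f(a + j(a)) : a ∈ A} ⊆ X ⊆ {f(a + t) : a ∈ A, t ∈ T}` has fewer than `c |X|^(k-ε)` products of `k`
elements. -/
noncomputable def excAdd (f : Polynomial ℤ) (k : ℕ) (ε c : ℝ) (A T : Finset ℤ) :
    Finset (A → ℤ) :=
  (Fintype.piFinset fun _ : A => T).filter fun j => ∃ X : Finset ℤ,
    (univ.image fun a : A => f.eval (a + j a)) ⊆ X ∧
    X ⊆ ((A ×ˢ T).image fun s => f.eval (s.1 + s.2)) ∧
    ((products k X).card : ℝ) < c * (X.card : ℝ) ^ ((k : ℝ) - ε)

lemma card_diam {T : Finset ℤ} {w : ℕ} (hT : ∀ x ∈ T, ∀ y ∈ T, |x - y| ≤ (w : ℤ)) :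
    T.card ≤ w + 1 := by
  rcases T.eq_empty_or_nonempty with rfl | hne
  · simp
  · have h1 : T ⊆ Finset.Icc (T.min' hne) (T.min' hne + w) := by
      intro x hx
      rw [mem_Icc]
      refine ⟨T.min'_le x hx, ?_⟩
      have := abs_le.1 (hT x hx _ (T.min'_mem hne))
      omega
    have h2 := card_le_card h1
    rw [Int.card_Icc] at h2
    omega

/-- **Almost all bounded additive perturbations.** -/
theorem add_main (k : ℕ) (hk : 1 ≤ k) {ε : ℝ} (hε : 0 < ε) (hε1 : ε ≤ 1) (d : ℕ) :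
    ∃ n : ℕ, ∀ w : ℕ, ∃ c : ℝ, 0 < c ∧ ∀ f : Polynomial ℤ, 1 ≤ f.natDegree →
      f.natDegree ≤ d → ∀ T : Finset ℤ, n ≤ T.card → (∀ x ∈ T, ∀ y ∈ T, |x - y| ≤ (w : ℤ)) →
      ∀ A : Finset ℤ, A.Nonempty →
        ((excAdd f k ε c A T).card : ℝ) ≤
          Real.exp (-(c * (A.card : ℝ) ^ (1 - ε))) * (T.card : ℝ) ^ A.card := by
  obtain ⟨n₁, H⟩ := Pool.Agent.R849.SV.polyShifts k hk (ε / 2) (half_pos hε) (by linarith) d
  refine ⟨max n₁ 1, fun w => ?_⟩
  obtain ⟨c₁, hc₁, H⟩ := H w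
  have hkr : (1 : ℝ) ≤ k := by exact_mod_cast hk
  set W : ℝ := ((w : ℝ) + 1) ^ k with hW
  have hw1 : (1 : ℝ) ≤ (w : ℝ) + 1 := by linarith [Nat.cast_nonneg (α := ℝ) w]
  have hW1 : 1 ≤ W := one_le_pow₀ hw1
  set R : ℝ := (2 * (k : ℝ) ^ 2 / c₁) ^ 2 with hR
  have hR0 : 0 < R := by positivity
  set c : ℝ := min (c₁ / (4 * W * W)) (min (c₁ ^ 2 / (32 * (k : ℝ) ^ 2 * W ^ 2))
    (1 / (((w : ℝ) + 1) * R) ^ k)) with hcd
  have hc : 0 < c := by positivity
  have hc_1 : c ≤ c₁ / (4 * W * W) := min_le_left _ _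
  have hc_2 : c ≤ c₁ ^ 2 / (32 * (k : ℝ) ^ 2 * W ^ 2) :=
    (min_le_right _ _).trans (min_le_left _ _)
  have hc_3 : c ≤ 1 / (((w : ℝ) + 1) * R) ^ k := (min_le_right _ _).trans (min_le_right _ _)
  refine ⟨c, hc, ?_⟩
  intro f hf1 hf2 T hTn hTw A hA
  obtain ⟨t, ht, hbig⟩ := H f hf1 hf2 T ((le_max_left _ _).trans hTn) hTw A hA
  set n := A.card with hn
  have hn1 : (1 : ℝ) ≤ n := by exact_mod_cast card_pos.2 hA
  have hn0 : (0 : ℝ) < n := by linarith
  set q : ℝ := (T.card : ℝ) with hq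
  have hT1 : 1 ≤ T.card := (le_max_right _ _).trans hTn
  have hq1 : 1 ≤ q := by
    rw [hq]
    exact_mod_cast hT1
  have hq0 : 0 < q := by linarith
  have hqw : q ≤ (w : ℝ) + 1 := by
    rw [hq]
    exact_mod_cast card_diam hTw
  have hqk : q ^ k ≤ W := pow_le_pow_left₀ hq0.le hqw k
  set N : ℝ := c₁ * (n : ℝ) ^ ((k : ℝ) - ε / 2) with hN
  have hN0 : 0 < N := by positivity
  have hcardA : Fintype.card A = n := Fintype.card_coe A
  have hpowk : (n : ℝ) ^ (k - 1) = (n : ℝ) ^ ((k : ℝ) - 1) := by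
    rw [← Real.rpow_natCast]
    congr 1
    rw [Nat.cast_sub hk]
    simp
  have hqn : 0 < q ^ n := by positivity
  have hXc : ∀ (X : Finset ℤ), X ⊆ ((A ×ˢ T).image fun s => f.eval (s.1 + s.2)) →
      (X.card : ℝ) ≤ ((w : ℝ) + 1) * n := by
    intro X hX
    have h2 : X.card ≤ A.card * T.card :=
      (card_le_card hX).trans (card_image_le.trans (card_product _ _).le)
    have h3 : (X.card : ℝ) ≤ n * q := by
      rw [hq, hn]
      exact_mod_cast h2
    have h4 := mul_le_mul_of_nonneg_left hqw hn0.le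
    linarith
  have hke : 0 ≤ (k : ℝ) - ε := by linarith
  have hXub : ∀ (X : Finset ℤ), X ⊆ ((A ×ˢ T).image fun s => f.eval (s.1 + s.2)) →
      (X.card : ℝ) ^ ((k : ℝ) - ε) ≤ W * (n : ℝ) ^ ((k : ℝ) - ε / 2) := by
    intro X hX
    refine (Real.rpow_le_rpow (by positivity) (hXc X hX) hke).trans ?_
    rw [Real.mul_rpow (by positivity) (by positivity)]
    refine mul_le_mul ?_ ?_ (by positivity) (by positivity)
    · rw [hW, ← Real.rpow_natCast]
      exact Real.rpow_le_rpow_of_exponent_le hw1 (by linarith)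
    · exact Real.rpow_le_rpow_of_exponent_le hn1 (by linarith)
  by_cases hsm : (k : ℝ) ^ 2 * (n : ℝ) ^ (k - 1) ≤ N / 2
  · -- large sets: random selection
    have hsel := sel3 (α := A) (γ := ℤ) (M := ℤ) k hk T t ht
      (fun r => ∏ i, f.eval ((r i : ℤ) + t i)) _ (by
        intro x hx
        obtain ⟨g, hg, rfl⟩ := mem_image.1 hx
        exact ⟨fun i => ⟨g i, Fintype.mem_piFinset.1 hg i⟩, rfl⟩) N hN0 hbig (by
        rw [hcardA]; exact hsm) (excAdd f k ε c A T) (by
        intro l hl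
        obtain ⟨hl1, X, hX1, hX2, hX3⟩ := mem_filter.1 hl
        refine ⟨fun a => Fintype.mem_piFinset.1 hl1 a, products k X, ?_, hX3.trans_le ?_⟩
        · intro r hr
          refine mem_image.2 ⟨fun i => f.eval ((r i : ℤ) + l (r i)), Fintype.mem_piFinset.2 fun i =>
            hX1 (mem_image.2 ⟨r i, mem_univ _, rfl⟩), ?_⟩
          exact prod_congr rfl fun i _ => by
            simp only [hr i]
        · rw [le_div_iff₀ (by positivity)]
          calc c * (X.card : ℝ) ^ ((k : ℝ) - ε) * (4 * (T.card : ℝ) ^ k)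
              ≤ c₁ / (4 * W * W) * (W * (n : ℝ) ^ ((k : ℝ) - ε / 2)) * (4 * W) := by
                refine mul_le_mul (mul_le_mul hc_1 (hXub X hX2) (by positivity) (by positivity)) ?_
                  (by positivity) (by positivity)
                exact mul_le_mul_of_nonneg_left hqk (by norm_num)
            _ = N := by
                rw [hN]
                field_simp)
    rw [hcardA] at hsel
    refine hsel.trans (mul_le_mul_of_nonneg_right (Real.exp_le_exp.2 (neg_le_neg ?_)) hqn.le)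
    have h1 : N / (4 * W) ≤ N / (4 * (T.card : ℝ) ^ k) :=
      div_le_div_of_nonneg_left hN0.le (by positivity)
        (mul_le_mul_of_nonneg_left hqk (by norm_num))
    have h2 : (N / (4 * W)) ^ 2 ≤ (N / (4 * (T.card : ℝ) ^ k)) ^ 2 :=
      pow_le_pow_left₀ (by positivity) h1 2
    rw [le_div_iff₀ (by positivity)]
    refine le_trans ?_ h2
    have h3 : ((n : ℝ) ^ ((k : ℝ) - ε / 2)) ^ 2 =
        (n : ℝ) ^ (1 - ε) * (n * ((n : ℝ) ^ ((k : ℝ) - 1)) ^ 2) := by
      rw [← Real.rpow_natCast, ← Real.rpow_natCast, ← Real.rpow_mul hn0.le, ← Real.rpow_mul hn0.le]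
      nth_rewrite 3 [← Real.rpow_one (n : ℝ)]
      rw [← Real.rpow_add hn0, ← Real.rpow_add hn0]
      congr 1
      push_cast
      ring
    calc c * (n : ℝ) ^ (1 - ε) * (2 * n * ((k : ℝ) * (n : ℝ) ^ (k - 1)) ^ 2)
        ≤ c₁ ^ 2 / (32 * (k : ℝ) ^ 2 * W ^ 2) * (n : ℝ) ^ (1 - ε) *
            (2 * n * ((k : ℝ) * (n : ℝ) ^ (k - 1)) ^ 2) := by
          refine mul_le_mul_of_nonneg_right (mul_le_mul_of_nonneg_right hc_2 ?_) ?_ <;> positivity
      _ = c₁ ^ 2 / (16 * W ^ 2) *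
            ((n : ℝ) ^ (1 - ε) * (n * ((n : ℝ) ^ ((k : ℝ) - 1)) ^ 2)) := by
          rw [hpowk]
          field_simp
          ring
      _ = (N / (4 * W)) ^ 2 := by
          rw [← h3, hN]
          field_simp
          ring
  · -- small sets: there is no exceptional function
    rw [not_le] at hsm
    have hnR : (n : ℝ) ≤ R := by
      have h2 : (n : ℝ) ^ ((k : ℝ) - ε / 2) = (n : ℝ) ^ (k - 1) * (n : ℝ) ^ (1 - ε / 2) := by
        rw [hpowk, ← Real.rpow_add hn0]
        congr 1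
        ring
      rw [hN, h2] at hsm
      have h3 : c₁ / 2 * (n : ℝ) ^ (1 - ε / 2) < (k : ℝ) ^ 2 := by
        have h4 : (0 : ℝ) < (n : ℝ) ^ (k - 1) := by positivity
        refine lt_of_mul_lt_mul_right ?_ h4.le
        linarith
      have h4 : (n : ℝ) ^ ((1 : ℝ) / 2) ≤ (n : ℝ) ^ (1 - ε / 2) :=
        Real.rpow_le_rpow_of_exponent_le hn1 (by linarith)
      have h5 : (n : ℝ) ^ ((1 : ℝ) / 2) ≤ 2 * (k : ℝ) ^ 2 / c₁ := by
        rw [le_div_iff₀ hc₁]
        have h6 := mul_le_mul_of_nonneg_left h4 (by positivity : 0 ≤ c₁ / 2)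
        linarith
      have h6 : (n : ℝ) = ((n : ℝ) ^ ((1 : ℝ) / 2)) ^ 2 := by
        rw [← Real.rpow_natCast, ← Real.rpow_mul hn0.le]
        norm_num
      rw [h6, hR]
      exact pow_le_pow_left₀ (by positivity) h5 2
    have hem : excAdd f k ε c A T = ∅ := by
      refine filter_false_of_mem fun l _ => ?_
      rintro ⟨X, hX1, hX2, hX3⟩
      obtain ⟨a, ha⟩ := hA
      have hxX : f.eval (a + l ⟨a, ha⟩) ∈ X :=
        hX1 (mem_image.2 ⟨⟨a, ha⟩, mem_univ _, rfl⟩)
      have hne : (products k X).Nonempty :=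
        ⟨_, mem_image.2 ⟨fun _ : Fin k => f.eval (a + l ⟨a, ha⟩),
          Fintype.mem_piFinset.2 fun _ => hxX, rfl⟩⟩
      have h1 : (1 : ℝ) ≤ (products k X).card := by
        exact_mod_cast card_pos.2 hne
      have hX1' : (1 : ℝ) ≤ X.card := by exact_mod_cast card_pos.2 ⟨_, hxX⟩
      have h2 : (X.card : ℝ) ^ ((k : ℝ) - ε) ≤ (((w : ℝ) + 1) * R) ^ k := by
        calc (X.card : ℝ) ^ ((k : ℝ) - ε) ≤ (X.card : ℝ) ^ (k : ℝ) :=
              Real.rpow_le_rpow_of_exponent_le hX1' (by linarith)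
          _ = (X.card : ℝ) ^ k := Real.rpow_natCast _ _
          _ ≤ (((w : ℝ) + 1) * R) ^ k := by
              refine pow_le_pow_left₀ (by positivity) ((hXc X hX2).trans ?_) k
              exact mul_le_mul_of_nonneg_left hnR (by positivity)
      have h3 : c * (X.card : ℝ) ^ ((k : ℝ) - ε) ≤ 1 := by
        calc c * (X.card : ℝ) ^ ((k : ℝ) - ε)
            ≤ 1 / (((w : ℝ) + 1) * R) ^ k * (((w : ℝ) + 1) * R) ^ k :=
              mul_le_mul hc_3 h2 (by positivity) (by positivity)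
          _ = 1 := by field_simp
      linarith
    rw [hem, card_empty]
    push_cast
    positivity

end Pool.Agent.T2H12.KR
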