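import Mathlib
import Pool.Agent.T2H12.KR.Mult

/-!
# Sets of integers in which many elements have several small ratios
-/

set_option autoImplicit false

namespace Pool.Agent.T2H12.KR

open Finset
open scoped Classical

/-- The set of the elements `y` of `X` with `p y = q x` for some non-zero integers `p` and `q` of
absolute value at most `M`. -/
noncomputable def nearSet (M : ℝ) (X : Finset ℤ) (x : ℤ) : Finset ℤ :=
  X.filter fun y => ∃ p q : ℤ, p ≠ 0 ∧ q ≠ 0 ∧ |(p : ℝ)| ≤ M ∧ |(q : ℝ)| ≤ M ∧ p * y = q * x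

lemma ratio_coprime {M : ℝ} {x y p q : ℤ} (hp : p ≠ 0) (hq : q ≠ 0) (hpM : |(p : ℝ)| ≤ M)
    (hqM : |(q : ℝ)| ≤ M) (h : p * y = q * x) :
    ∃ p' q' : ℤ, p' ≠ 0 ∧ q' ≠ 0 ∧ |(p' : ℝ)| ≤ M ∧ |(q' : ℝ)| ≤ M ∧ p' * y = q' * x ∧
      p' ∣ x := by
  have hg : 0 < p.gcd q := Int.gcd_pos_of_ne_zero_left q hp
  obtain ⟨g, p', q', hg0, hg1, hp', hq'⟩ := Int.exists_gcd_one' hg
  have hgr : (1 : ℝ) ≤ g := by exact_mod_cast hg0
  have hgz : (g : ℤ) ≠ 0 := by exact_mod_cast hg0.ne'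
  have h1 : p' ≠ 0 := by
    rintro rfl
    exact hp (by rw [hp', zero_mul])
  have h2 : q' ≠ 0 := by
    rintro rfl
    exact hq (by rw [hq', zero_mul])
  have hb : ∀ a b : ℤ, a = b * g → |(a : ℝ)| ≤ M → |(b : ℝ)| ≤ M := by
    intro a b hab haM
    rw [hab] at haM
    push_cast at haM
    rw [abs_mul, abs_of_nonneg (by positivity : (0 : ℝ) ≤ (g : ℝ))] at haM
    exact (le_mul_of_one_le_right (abs_nonneg _) hgr).trans haM
  have h3 : p' * y = q' * x := by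
    refine mul_left_cancel₀ hgz ?_
    rw [hp', hq'] at h
    linear_combination h
  have h4 : IsCoprime p' q' := Int.isCoprime_iff_gcd_eq_one.2 hg1
  exact ⟨p', q', h1, h2, hb _ _ hp' hpM, hb _ _ hq' hqM, h3,
    h4.dvd_of_dvd_mul_left (h3 ▸ dvd_mul_right p' y)⟩

/-- A common denominator of several small ratios. -/
lemma common_denominator {M : ℝ} (hM : 1 ≤ M) {x : ℤ} (hx : x ≠ 0) {N : Finset ℤ}
    (hN : ∀ y ∈ N, ∃ p q : ℤ, p ≠ 0 ∧ q ≠ 0 ∧ |(p : ℝ)| ≤ M ∧ |(q : ℝ)| ≤ M ∧ p * y = q * x) :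
    ∃ P z : ℤ, P ≠ 0 ∧ |(P : ℝ)| ≤ M ^ N.card ∧ x = P * z ∧
      ∀ y ∈ N, ∃ l : ℤ, l ≠ 0 ∧ |(l : ℝ)| ≤ M ^ (N.card + 1) ∧ y = l * z := by
  have h1 : ∀ y : ℤ, ∃ p q : ℤ, y ∈ N → (p ≠ 0 ∧ q ≠ 0 ∧ |(p : ℝ)| ≤ M ∧ |(q : ℝ)| ≤ M ∧
      p * y = q * x ∧ p ∣ x) := by
    intro y
    by_cases hy : y ∈ N
    · obtain ⟨p, q, h1, h2, h3, h4, h5⟩ := hN y hy
      obtain ⟨p', q', h⟩ := ratio_coprime h1 h2 h3 h4 h5
      exact ⟨p', q', fun _ => h⟩
    · exact ⟨0, 0, fun h => absurd h hy⟩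
  choose p q hpq using h1
  have hPx : N.lcm p ∣ x := Finset.lcm_dvd fun y hy => (hpq y hy).2.2.2.2.2
  obtain ⟨z, hz⟩ := hPx
  have hP0 : N.lcm p ≠ 0 := by
    intro h0
    rw [h0, zero_mul] at hz
    exact hx hz
  have hprod0 : N.prod p ≠ 0 := prod_ne_zero_iff.2 fun y hy => (hpq y hy).1
  have hPM : |((N.lcm p : ℤ) : ℝ)| ≤ M ^ N.card := by
    have h2 := Int.natAbs_le_of_dvd_ne_zero (Finset.lcm_dvd_prod N p) hprod0
    have h3 : |((N.lcm p : ℤ) : ℝ)| ≤ |((N.prod p : ℤ) : ℝ)| := by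
      rw [← Int.cast_abs, ← Int.cast_abs, Int.abs_eq_natAbs, Int.abs_eq_natAbs]
      exact_mod_cast h2
    refine h3.trans ?_
    rw [Int.cast_prod, Finset.abs_prod]
    calc ∏ y ∈ N, |(p y : ℝ)| ≤ ∏ _y ∈ N, M :=
          prod_le_prod (fun y _ => abs_nonneg _) fun y hy => (hpq y hy).2.2.1
      _ = M ^ N.card := by rw [prod_const]
  refine ⟨N.lcm p, z, hP0, hPM, hz, ?_⟩
  intro y hy
  obtain ⟨hp0, hq0, hpM, hqM, hyx, -⟩ := hpq y hy
  obtain ⟨s, hs⟩ := Finset.dvd_lcm (f := p) hy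
  have hs0 : s ≠ 0 := by
    rintro rfl
    exact hP0 (by rw [hs, mul_zero])
  refine ⟨q y * s, mul_ne_zero hq0 hs0, ?_, ?_⟩
  · have h2 : |(s : ℝ)| ≤ M ^ N.card := by
      refine le_trans ?_ hPM
      rw [hs]
      push_cast
      rw [abs_mul]
      have h3 : (1 : ℝ) ≤ |(p y : ℝ)| := by
        rw [← Int.cast_abs]
        exact_mod_cast Int.one_le_abs hp0
      exact le_mul_of_one_le_left (abs_nonneg _) h3
    push_cast
    rw [abs_mul, pow_succ, mul_comm]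
    exact mul_le_mul h2 hqM (abs_nonneg _) (by positivity)
  · refine mul_left_cancel₀ hp0 ?_
    rw [hyx, hz, hs]
    ring

/-- **Many elements with several small ratios.** -/
theorem ratio_main (k m : ℕ) (hk : 1 ≤ k) (hm : 1 ≤ m) {ε : ℝ} (hε : 0 < ε) (hε1 : ε ≤ 1) :
    ∃ (K : ℕ) (δ c : ℝ), 0 < δ ∧ 0 < c ∧ ∀ X : Finset ℤ, X.Nonempty →
      (X.card : ℝ) ^ (1 - δ) ≤
        ((X.filter fun x => K ≤ (nearSet ((X.card : ℝ) ^ δ) X x).card).card : ℝ) →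
      c * (X.card : ℝ) ^ ((k : ℝ) - ε) ≤ (prodSet k X).card ∨
      ∀ B : Finset ℤ, B.Nonempty →
        c * (X.card : ℝ) ^ ((m : ℝ) - ε) * (B.card : ℝ) ^ (1 - ε) ≤ (sumPlus m X B).card := by
  obtain ⟨K₁, δ₁, c₁, hδ₁, hc₁, HH⟩ := mult_main k m hk hm hε hε1
  have hkr : (1 : ℝ) ≤ k := by exact_mod_cast hk
  have hmr : (1 : ℝ) ≤ m := by exact_mod_cast hm
  set K : ℕ := max K₁ 2 with hK
  set δ : ℝ := δ₁ / (2 * (K + 1)) with hδd
  have hδ : 0 < δ := by positivity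
  have hδe : δ * (K + 1) = δ₁ / 2 := by
    rw [hδd]
    field_simp
  set Z₀ : ℝ := (3 : ℝ) ^ (2 / δ₁) with hZ₀
  have hZ₁ : 1 ≤ Z₀ := Real.one_le_rpow (by norm_num) (by positivity)
  set c : ℝ := min c₁ (1 / Z₀ ^ (k + m)) with hcd
  have hc : 0 < c := by positivity
  refine ⟨K, δ, c, hδ, hc, ?_⟩
  intro X hX hG
  set n := X.card with hn
  have hn1 : (1 : ℝ) ≤ n := by exact_mod_cast card_pos.2 hX
  have hn0 : (0 : ℝ) < n := by linarith
  have hke : 0 ≤ (k : ℝ) - ε := by linarith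
  by_cases hsm : (n : ℝ) < Z₀
  · -- small sets
    left
    have h1 : (1 : ℝ) ≤ (prodSet k X).card := by exact_mod_cast card_pos.2 (prodSet_nonempty hX)
    refine le_trans ?_ h1
    have h2 : (n : ℝ) ^ ((k : ℝ) - ε) ≤ Z₀ ^ (k + m) := by
      calc (n : ℝ) ^ ((k : ℝ) - ε) ≤ (n : ℝ) ^ (((k + m : ℕ) : ℝ)) := by
            refine Real.rpow_le_rpow_of_exponent_le hn1 ?_
            push_cast
            linarith
        _ = (n : ℝ) ^ (k + m) := Real.rpow_natCast _ _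
        _ ≤ Z₀ ^ (k + m) := pow_le_pow_left₀ hn0.le hsm.le _
    calc c * (n : ℝ) ^ ((k : ℝ) - ε) ≤ 1 / Z₀ ^ (k + m) * Z₀ ^ (k + m) :=
          mul_le_mul (min_le_right _ _) h2 (by positivity) (by positivity)
      _ = 1 := by field_simp
  rw [not_lt] at hsm
  have h3n : (3 : ℝ) ≤ (n : ℝ) ^ (δ₁ / 2) := by
    calc (3 : ℝ) = Z₀ ^ (δ₁ / 2) := by
          rw [hZ₀, ← Real.rpow_mul (by norm_num)]
          have : 2 / δ₁ * (δ₁ / 2) = 1 := by field_simp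
          rw [this, Real.rpow_one]
      _ ≤ (n : ℝ) ^ (δ₁ / 2) := Real.rpow_le_rpow (by positivity) hsm (by positivity)
  have hnd : (1 : ℝ) ≤ (n : ℝ) ^ δ := Real.one_le_rpow hn1 hδ.le
  have hpow : ∀ j : ℕ, ((n : ℝ) ^ δ) ^ j = (n : ℝ) ^ (δ * j) := by
    intro j
    rw [Real.rpow_mul hn0.le, Real.rpow_natCast]
  set G := X.filter fun x => K ≤ (nearSet ((n : ℝ) ^ δ) X x).card with hGd
  -- the data of a good element
  have hsel : ∀ x : ℤ, ∃ (P z : ℤ) (N : Finset ℤ), x ∈ G → (z ≠ 0 ∧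
      |(P : ℝ)| ≤ (n : ℝ) ^ (δ * K) ∧ x = P * z ∧ N.card = K ∧ ∀ y ∈ N, y ∈ X ∧
      ∃ l : ℤ, l ≠ 0 ∧ |(l : ℝ)| ≤ (n : ℝ) ^ δ₁ ∧ y = l * z) := by
    intro x
    by_cases hx : x ∈ G
    · obtain ⟨hxX, hxK⟩ := mem_filter.1 hx
      obtain ⟨N, hN, hNc⟩ := exists_subset_card_eq hxK
      have hNX : ∀ y ∈ N, y ∈ X ∧ ∃ p q : ℤ, p ≠ 0 ∧ q ≠ 0 ∧ |(p : ℝ)| ≤ (n : ℝ) ^ δ ∧
          |(q : ℝ)| ≤ (n : ℝ) ^ δ ∧ p * y = q * x := fun y hy => mem_filter.1 (hN hy)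
      have hx0 : x ≠ 0 := by
        intro hx0
        have h1 : N ⊆ {0} := by
          intro y hy
          obtain ⟨-, p, q, hp, -, -, -, h⟩ := hNX y hy
          rw [hx0, mul_zero] at h
          rcases mul_eq_zero.1 h with h' | h'
          · exact absurd h' hp
          · exact mem_singleton.2 h'
        have h2 := card_le_card h1
        rw [hNc, card_singleton] at h2
        omega
      obtain ⟨P, z, hP, hPM, hxz, hl⟩ := common_denominator hnd hx0 fun y hy => (hNX y hy).2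
      refine ⟨P, z, N, fun _ => ⟨?_, ?_, hxz, hNc, fun y hy => ⟨(hNX y hy).1, ?_⟩⟩⟩
      · rintro rfl
        exact hx0 (by rw [hxz, mul_zero])
      · rw [hNc, hpow] at hPM
        exact hPM
      · obtain ⟨l, h1, h2, h3⟩ := hl y hy
        refine ⟨l, h1, h2.trans ?_, h3⟩
        rw [hNc, hpow]
        refine Real.rpow_le_rpow_of_exponent_le hn1 ?_
        push_cast
        rw [hδe]
        linarith
    · exact ⟨0, 0, ∅, fun h => absurd h hx⟩
  choose P z N hPzN using hsel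
  set Y := G.image z with hY
  -- the number of the quotients
  have hYG : (G.card : ℝ) ≤ 3 * (n : ℝ) ^ (δ * K) * Y.card := by
    set T : Finset ℤ := Finset.Icc (-⌊(n : ℝ) ^ (δ * K)⌋) ⌊(n : ℝ) ^ (δ * K)⌋ with hT
    have hTc : (T.card : ℝ) ≤ 3 * (n : ℝ) ^ (δ * K) :=
      card_mult (Real.one_le_rpow hn1 (by positivity)) (by
        intro l hl
        rw [hT, mem_Icc] at hl
        have h1 : (l : ℝ) ≤ ⌊(n : ℝ) ^ (δ * K)⌋ := by exact_mod_cast hl.2
        have h2 : -(⌊(n : ℝ) ^ (δ * K)⌋ : ℝ) ≤ l := by exact_mod_cast hl.1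
        have h3 := Int.floor_le ((n : ℝ) ^ (δ * K))
        rw [abs_le]
        constructor <;> linarith)
    have h1 : G.card ≤ T.card * Y.card := by
      refine card_le_mul_card_image G T.card fun b _ => ?_
      refine card_le_card_of_injOn P ?_ ?_
      · intro x hx
        obtain ⟨hxG, -⟩ := mem_filter.1 (mem_coe.1 hx)
        have h2 := abs_le.1 (hPzN x hxG).2.1
        rw [hT, mem_coe, mem_Icc]
        refine ⟨?_, Int.le_floor.2 h2.2⟩
        have h3 : -P x ≤ ⌊(n : ℝ) ^ (δ * K)⌋ := Int.le_floor.2 (by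
          push_cast
          linarith [h2.1])
        omega
      · intro x hx x' hx' hxx
        obtain ⟨hxG, hxb⟩ := mem_filter.1 (mem_coe.1 hx)
        obtain ⟨hxG', hxb'⟩ := mem_filter.1 (mem_coe.1 hx')
        rw [(hPzN x hxG).2.2.1, (hPzN x' hxG').2.2.1, hxb, hxb']
        have : P x = P x' := hxx
        rw [this]
    calc (G.card : ℝ) ≤ (T.card : ℝ) * Y.card := by exact_mod_cast h1
      _ ≤ 3 * (n : ℝ) ^ (δ * K) * Y.card :=
          mul_le_mul_of_nonneg_right hTc (Nat.cast_nonneg _)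
  have hYc : (n : ℝ) ^ (1 - δ₁) ≤ Y.card := by
    have h1 : 3 * (n : ℝ) ^ (δ * K) * (n : ℝ) ^ (1 - δ₁) ≤ 3 * (n : ℝ) ^ (δ * K) * Y.card := by
      refine le_trans ?_ (hG.trans hYG)
      calc 3 * (n : ℝ) ^ (δ * K) * (n : ℝ) ^ (1 - δ₁) =
            3 * ((n : ℝ) ^ (δ * K) * (n : ℝ) ^ (1 - δ₁)) := by ring
        _ ≤ (n : ℝ) ^ (δ₁ / 2) * ((n : ℝ) ^ (δ * K) * (n : ℝ) ^ (1 - δ₁)) :=
            mul_le_mul_of_nonneg_right h3n (by positivity)
        _ = (n : ℝ) ^ (1 - δ) := by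
            rw [← Real.rpow_add hn0, ← Real.rpow_add hn0]
            congr 1
            linarith
    exact le_of_mul_le_mul_left h1 (by positivity)
  refine (HH X hX Y ?_ hYc ?_).imp (fun h => ?_) fun h B hB => ?_
  · intro h0
    obtain ⟨x, hx, hx0⟩ := mem_image.1 h0
    exact (hPzN x hx).1 hx0
  · intro y hy
    obtain ⟨x, hx, rfl⟩ := mem_image.1 hy
    obtain ⟨hz, -, -, hNc, hN⟩ := hPzN x hx
    refine ⟨(N x).image fun y => y / z x, ?_, ?_⟩
    · rw [card_image_of_injOn, hNc]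
      · exact le_max_left _ _
      · intro a ha b hb hab
        obtain ⟨-, l, -, -, hl⟩ := hN a ha
        obtain ⟨-, l', -, -, hl'⟩ := hN b hb
        simp only [hl, hl'] at hab ⊢
        rw [Int.mul_ediv_cancel _ hz, Int.mul_ediv_cancel _ hz] at hab
        rw [hab]
    · intro l hl
      obtain ⟨a, ha, rfl⟩ := mem_image.1 hl
      obtain ⟨haX, l, hl0, hlM, hal⟩ := hN a ha
      have h1 : a / z x = l := by rw [hal, Int.mul_ediv_cancel _ hz]
      simp only [h1]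
      refine ⟨hl0, hlM, ?_⟩
      rw [← hal]
      exact haX
  · exact (mul_le_mul_of_nonneg_right (min_le_left _ _) (by positivity)).trans h
  · refine le_trans ?_ (h B hB)
    rw [mul_assoc, mul_assoc]
    exact mul_le_mul_of_nonneg_right (min_le_left _ _) (by positivity)

/-- **Many elements with several small ratios**, for every `ε > 0`. -/
theorem ratio_main' (k m : ℕ) (hk : 1 ≤ k) (hm : 1 ≤ m) {ε : ℝ} (hε : 0 < ε) :
    ∃ (K : ℕ) (δ c : ℝ), 0 < δ ∧ 0 < c ∧ ∀ X : Finset ℤ, X.Nonempty →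
      (X.card : ℝ) ^ (1 - δ) ≤
        ((X.filter fun x => K ≤ (nearSet ((X.card : ℝ) ^ δ) X x).card).card : ℝ) →
      c * (X.card : ℝ) ^ ((k : ℝ) - ε) ≤ (prodSet k X).card ∨
      ∀ B : Finset ℤ, B.Nonempty →
        c * (X.card : ℝ) ^ ((m : ℝ) - ε) * (B.card : ℝ) ^ (1 - ε) ≤ (sumPlus m X B).card := by
  obtain ⟨K, δ, c, hδ, hc, H⟩ := ratio_main k m hk hm (ε := min ε 1) (by positivity)
    (min_le_right _ _)
  refine ⟨K, δ, c, hδ, hc, fun X hX hG => ?_⟩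
  have hn1 : (1 : ℝ) ≤ X.card := by exact_mod_cast card_pos.2 hX
  have hle : min ε 1 ≤ ε := min_le_left _ _
  refine (H X hX hG).imp (fun h => le_trans ?_ h) fun h B hB => le_trans ?_ (h B hB)
  · exact mul_le_mul_of_nonneg_left
      (Real.rpow_le_rpow_of_exponent_le hn1 (by linarith)) hc.le
  · have hB1 : (1 : ℝ) ≤ B.card := by exact_mod_cast card_pos.2 hB
    refine mul_le_mul (mul_le_mul_of_nonneg_left
      (Real.rpow_le_rpow_of_exponent_le hn1 (by linarith)) hc.le)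
      (Real.rpow_le_rpow_of_exponent_le hB1 (by linarith)) (by positivity) (by positivity)

end Pool.Agent.T2H12.KR
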